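import Mathlib

/-!
# SR LinearZero

Let `T` be an injective endomorphism of a finitely generated module over a domain, and `L` a linear
functional which vanishes on the image of `T`. Then `L = 0`.

Proof. By `LinearMap.exists_monic_and_aeval_eq_zero` there is a monic, in particular nonzero,
polynomial `P` with `aeval T P = 0`. Take `P ≠ 0` with `aeval T P = 0` of minimal `natDegree`. Write
`P = X * P.divX + C (P.coeff 0)` (`Polynomial.X_mul_divX_add` or `divX_mul_X_add`). If
`P.coeff 0 = 0` then `0 = aeval T P = T * aeval T P.divX`, so `aeval T P.divX = 0` by injectivity of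
`T`, and `P.divX ≠ 0` has smaller `natDegree` (`Polynomial.natDegree_divX_eq_natDegree_tsub_one`;
`P.natDegree ≠ 0` since otherwise `P = C (P.coeff 0) = 0`), a contradiction. So
`c = P.coeff 0 ≠ 0`, and for every `m`: `0 = (aeval T P) m = T ((aeval T P.divX) m) + c • m`.
Applying `L`: `0 = 0 + c * L m`, hence `L m = 0`.
-/

namespace Pool.Agent.H82.SR

open Polynomial

theorem linear_zero {R M : Type*} [CommRing R] [IsDomain R] [AddCommGroup M] [Module R M]
    [Module.Finite R M] (T : M →ₗ[R] M) (hT : Function.Injective T) (L : M →ₗ[R] R)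
    (hL : ∀ m, L (T m) = 0) (m : M) : L m = 0 := by
  classical
  have hex : ∃ d : ℕ, ∃ P : R[X], P ≠ 0 ∧ aeval T P = 0 ∧ P.natDegree = d := by
    obtain ⟨P, hP, hP0⟩ := LinearMap.exists_monic_and_aeval_eq_zero R T
    exact ⟨P.natDegree, P, hP.ne_zero, hP0, rfl⟩
  obtain ⟨P, hP, hP0, hdeg⟩ := Nat.find_spec hex
  have hmin : ∀ Q : R[X], Q ≠ 0 → aeval T Q = 0 → P.natDegree ≤ Q.natDegree := by
    intro Q hQ hQ0
    rw [hdeg]
    exact Nat.find_min' hex ⟨Q, hQ, hQ0, rfl⟩
  have hdec : aeval T P = T * aeval T P.divX + algebraMap R (Module.End R M) (P.coeff 0) := by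
    conv_lhs => rw [← Polynomial.X_mul_divX_add P]
    rw [map_add, map_mul, aeval_X, aeval_C]
  have hc : P.coeff 0 ≠ 0 := by
    intro h0
    rw [h0, map_zero, add_zero, hP0] at hdec
    have h1 : aeval T P.divX = 0 := by
      apply LinearMap.ext
      intro x
      apply hT
      have := LinearMap.congr_fun hdec x
      rw [LinearMap.zero_apply, Module.End.mul_apply] at this
      rw [← this, LinearMap.zero_apply, map_zero]
    have h2 : P.natDegree ≠ 0 := by
      intro h3
      apply hP
      rw [Polynomial.eq_C_of_natDegree_eq_zero h3, h0, map_zero]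
    have h3 : P.divX ≠ 0 := by
      intro h4
      apply hP
      rw [← Polynomial.X_mul_divX_add P, h4, h0, map_zero, mul_zero, add_zero]
    have h4 := hmin _ h3 h1
    rw [Polynomial.natDegree_divX_eq_natDegree_tsub_one] at h4
    omega
  have h1 := congrArg L (LinearMap.congr_fun hdec m)
  rw [hP0, LinearMap.zero_apply, map_zero, LinearMap.add_apply, Module.End.mul_apply, map_add, hL,
    zero_add, Module.algebraMap_end_apply, map_smul, smul_eq_mul] at h1
  rcases mul_eq_zero.1 h1.symm with h | h
  · exact absurd h hc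
  · exact h

end Pool.Agent.H82.SR
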