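import Pool.Agent.H82.SR.Kernel
import Pool.Agent.H82.SR.LinearZero

/-!
# SR Annihilator

A linear functional which is invariant under the averaging operator kills the difference functions.
(The imports `Kernel` and `LinearZero` are other modules of the project; use their theorems
`kernel_const` and `linear_zero`.)

Proof. Write `d w = fun v => C (dif δ w0 p q w v)` and let `W = Submodule.span ℚ[X] (Set.range d)`
(a submodule of the finite free module `Fin n → ℚ[X]` over the Noetherian ring `ℚ[X]`; so it is a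
finite module). Let `M = avg ξ δ`.
* `M (d w) = ∑ i, wt ξ i • d (i :: w)`, because `dif δ w0 p q w (δ v i) = dif δ w0 p q (i :: w) v`
  (`run_cons`). So `M` maps `W` into `W`.
* Let `S` be the set of `Sep`, and `F h = ∑ s ∈ S, h s`. Then `F (d w) = 0` for all `w` (the
  two filters of `Sep` have the same cardinality; `Finset.sum_boole`), so `F` vanishes on `W`.
* `T = M - 1` restricted to `W` (`LinearMap.restrict`) is injective: if `h ∈ W` and `M h = h` then
  `h` is constant by `kernel_const`, `h = fun _ => b`, and `0 = F h = S.card * b`, so `b = 0`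
  (characteristic zero, `S` nonempty).
* `L (M h - h) = 0` for all `h`. So `linear_zero` applied to `W`, `T` and the restriction of `L` to
  `W` gives `L h = 0` for all `h ∈ W`.
-/

namespace Pool.Agent.H82.SR

open Finset Polynomial
open Pool.Agent.H10.Sync

variable {n k : ℕ}

theorem annihilator (hk : 1 ≤ k) (δ : Fin n → Fin k → Fin n)
    (hconn : ∀ u v, ∃ w, run δ u w = v) (ξ : Fin k → ℚ) (hξ : ∑ i, ξ i = 0)
    {w0 : List (Fin k)} {p q : Fin n} (hs : Sep δ w0 p q)
    (L : (Fin n → ℚ[X]) →ₗ[ℚ[X]] ℚ[X]) (hL : ∀ h, L (avg ξ δ h) = L h) (w : List (Fin k)) :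
    L (fun v => C (dif δ w0 p q w v)) = 0 := by
  classical
  obtain ⟨-, -, -, S, hS, hSw⟩ := hs
  let d : List (Fin k) → (Fin n → ℚ[X]) := fun w v => C (dif δ w0 p q w v)
  let W : Submodule ℚ[X] (Fin n → ℚ[X]) := Submodule.span ℚ[X] (Set.range d)
  have hdW : ∀ w, d w ∈ W := fun w => Submodule.subset_span ⟨w, rfl⟩
  have hMd : ∀ w, avg ξ δ (d w) = ∑ i, wt ξ i • d (i :: w) := by
    intro w
    funext v
    rw [avg_apply, Finset.sum_apply]
    refine sum_congr rfl fun i _ => ?_
    simp only [Pi.smul_apply, smul_eq_mul]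
    rfl
  have hMW : ∀ h ∈ W, avg ξ δ h ∈ W := by
    intro h hh
    refine Submodule.span_induction (p := fun h _ => avg ξ δ h ∈ W) ?_ ?_ ?_ ?_ hh
    · rintro _ ⟨w, rfl⟩
      rw [hMd]
      exact Submodule.sum_mem _ fun i _ => Submodule.smul_mem _ _ (hdW _)
    · rw [map_zero]
      exact W.zero_mem
    · intro x y _ _ hx hy
      rw [map_add]
      exact W.add_mem hx hy
    · intro a x _ hx
      rw [map_smul]
      exact W.smul_mem _ hx
  -- the sum over `S`
  let F : (Fin n → ℚ[X]) →ₗ[ℚ[X]] ℚ[X] := ∑ s ∈ S, LinearMap.proj s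
  have hF : ∀ h, F h = ∑ s ∈ S, h s := by
    intro h
    simp only [F, LinearMap.sum_apply, LinearMap.proj_apply]
  have hFd : ∀ w, F (d w) = 0 := by
    intro w
    rw [hF]
    have h1 := hSw w
    change ∑ s ∈ S, C (dif δ w0 p q w s) = 0
    rw [← map_sum]
    unfold dif
    rw [sum_sub_distrib, sum_boole, sum_boole, h1, sub_self, map_zero]
  have hFW : ∀ h ∈ W, F h = 0 := by
    intro h hh
    have h2 : W ≤ LinearMap.ker F := by
      rw [Submodule.span_le]
      rintro _ ⟨w, rfl⟩
      exact hFd w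
    exact h2 hh
  let T0 : (Fin n → ℚ[X]) →ₗ[ℚ[X]] (Fin n → ℚ[X]) := avg ξ δ - LinearMap.id
  have hT0 : ∀ h ∈ W, T0 h ∈ W := by
    intro h hh
    change avg ξ δ h - h ∈ W
    exact W.sub_mem (hMW h hh) hh
  let T : W →ₗ[ℚ[X]] W := T0.restrict hT0
  have hTinj : Function.Injective T := by
    rw [← LinearMap.ker_eq_bot, LinearMap.ker_eq_bot']
    rintro ⟨h, hh⟩ hT
    have h1 : avg ξ δ h - h = 0 := congrArg Subtype.val hT
    have h2 : avg ξ δ h = h := sub_eq_zero.1 h1
    have h3 := kernel_const hk δ hconn ξ hξ h h2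
    obtain ⟨s, hs⟩ := hS
    have h4 := hFW h hh
    rw [hF, sum_congr rfl (fun t _ => h3 t s), sum_const, nsmul_eq_mul, mul_eq_zero] at h4
    have h5 : h s = 0 := by
      rcases h4 with h4 | h4
      · exfalso
        have h6 : 0 < S.card := card_pos.2 ⟨s, hs⟩
        have h7 : S.card = 0 := by exact_mod_cast h4
        omega
      · exact h4
    apply Subtype.ext
    funext v
    change h v = 0
    rw [h3 v s, h5]
  have := linear_zero T hTinj (L.comp W.subtype) (by
    rintro ⟨h, hh⟩
    change L (avg ξ δ h - h) = 0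
    rw [map_sub, hL, sub_self]) ⟨d w, hdW w⟩
  exact this

end Pool.Agent.H82.SR
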