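import Pool.Agent.H82.SR.Defs

/-!
# SR Counting

The counting argument. `Bad` is a set of colourings, every `c ∈ Bad` selects a vertex `sel c` such
that the labels `lab (sel c)` of the edges leaving `sel c` are not all equal, the selected vertex
does not change if the colours at the selected vertex are changed, and two members of `Bad` which
differ only at the selected vertex have the same label pattern there. Then the proportion of `Bad`
among all colourings is at most `1 / k`.

Proof. It is enough to give an injective map `F : Bad × Fin k → Coloring n k`.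

(1) Let `p : Fin k → ℕ` be not constant. Choose `j0`, `i0` with `p i0 ≠ p j0` (depending only on
`p`: use choice, for instance `if h : ∃ i j, p i ≠ p j then ... h.choose ...`). For `x : Fin k` let
`π p x : Equiv.Perm (Fin k)` be `1` if `x = j0`, `Equiv.swap x j0` if `p x ≠ p j0`, and
`Equiv.swap i0 x` if `x ≠ j0` and `p x = p j0`. Claim: if `p ∘ π p x = p ∘ π p x'` then `x = x'`.
Indeed the set of the positions `i` with `p (π p x i) ≠ p i` is empty, `{x, j0}`, `{i0, x}` in the
three cases (in the second case `x ≠ j0`; in the third `x ≠ i0`, since `p i0 ≠ p j0 = p x`). In the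
second case `j0` is in the set, in the third it is not (as `i0 ≠ j0`, `x ≠ j0`) and the set is
nonempty. So the case is determined by the set, and in each case so is `x` (in the third case `x` is
the element of the set with `p x = p j0`, in the second the element different from `j0`).

(2) For `c ∈ Bad` let `s = sel c`, `p i = lab s ((c s).symm i)` (not constant by `h1`), and
`F (c, x)` = the colouring equal to `c` outside `s` and to the permutation `σ` at `s`, where
`σ.symm = (c s).symm ∘ π p x`, that is `σ = (π p x).symm * c s` in `Equiv.Perm` (`Function.update`).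

(3) `F` is injective. Let `F (c, x) = F (c', x') = d`. As `d` agrees with `c` outside `sel c` and with
`c'` outside `sel c'`, `h2` gives `sel c = sel d = sel c' = s`. So `c` and `c'` agree outside `s`,
and by `h3` they have the same pattern `p`. Looking at the labels of `d` at `s`:
`lab s ((d s).symm i) = p (π p x i) = p (π p x' i)` for all `i`. So `x = x'` by (1), and
`(π p x).symm * c s = (π p x).symm * c' s` gives `c s = c' s`, so `c = c'`.
-/

namespace Pool.Agent.H82.SR

open Finset Polynomial
open Pool.Agent.H10.Sync

variable {n k : ℕ}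

open Classical in
/-- The permutations of step (1). -/
private noncomputable def Counting_pi (p : Fin k → ℕ) (i0 j0 x : Fin k) : Equiv.Perm (Fin k) :=
  if x = j0 then 1 else if p x ≠ p j0 then Equiv.swap x j0 else Equiv.swap i0 x

private theorem Counting_pi_inj (p : Fin k → ℕ) (i0 j0 : Fin k) (h0 : p i0 ≠ p j0)
    (x x' : Fin k) (h : ∀ i, p (Counting_pi p i0 j0 x i) = p (Counting_pi p i0 j0 x' i)) :
    x = x' := by
  -- the set of the changed positions
  have key1 : ∀ x i, x = j0 → p (Counting_pi p i0 j0 x i) = p i := by
    intro x i hx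
    simp [Counting_pi, hx]
  have key2 : ∀ x, x ≠ j0 → p x ≠ p j0 → ∀ i, (p (Counting_pi p i0 j0 x i) ≠ p i ↔
      i = x ∨ i = j0) := by
    intro x hx hp i
    have e : Counting_pi p i0 j0 x = Equiv.swap x j0 := by
      unfold Counting_pi
      rw [if_neg hx, if_pos hp]
    rw [e]
    constructor
    · intro h1
      by_contra h2
      push Not at h2
      rw [Equiv.swap_apply_of_ne_of_ne h2.1 h2.2] at h1
      exact h1 rfl
    · rintro (rfl | rfl)
      · rw [Equiv.swap_apply_left]
        exact hp.symm
      · rw [Equiv.swap_apply_right]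
        exact hp
  have key3 : ∀ x, x ≠ j0 → ¬ p x ≠ p j0 → ∀ i, (p (Counting_pi p i0 j0 x i) ≠ p i ↔
      i = i0 ∨ i = x) := by
    intro x hx hp i
    have e : Counting_pi p i0 j0 x = Equiv.swap i0 x := by
      unfold Counting_pi
      rw [if_neg hx, if_neg hp]
    push Not at hp
    rw [e]
    constructor
    · intro h1
      by_contra h2
      push Not at h2
      rw [Equiv.swap_apply_of_ne_of_ne h2.1 h2.2] at h1
      exact h1 rfl
    · rintro (rfl | rfl)
      · rw [Equiv.swap_apply_left, hp]
        exact h0.symm
      · rw [Equiv.swap_apply_right, hp]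
        exact h0
  have hij : i0 ≠ j0 := fun h => h0 (by rw [h])
  have hD : ∀ i, (p (Counting_pi p i0 j0 x i) ≠ p i ↔ p (Counting_pi p i0 j0 x' i) ≠ p i) := by
    intro i
    rw [h i]
  by_cases a : x = j0
  · by_cases a' : x' = j0
    · rw [a, a']
    · exfalso
      by_cases b' : p x' ≠ p j0
      · have h1 := (hD j0).2 ((key2 x' a' b' j0).2 (Or.inr rfl))
        exact h1 (key1 x j0 a)
      · have h1 := (hD i0).2 ((key3 x' a' b' i0).2 (Or.inl rfl))
        exact h1 (key1 x i0 a)
  · by_cases b : p x ≠ p j0
    · by_cases a' : x' = j0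
      · exfalso
        have h1 := (hD j0).1 ((key2 x a b j0).2 (Or.inr rfl))
        exact h1 (key1 x' j0 a')
      · by_cases b' : p x' ≠ p j0
        · have h1 := (key2 x' a' b' x).1 ((hD x).1 ((key2 x a b x).2 (Or.inl rfl)))
          exact h1.resolve_right a
        · exfalso
          have h1 := (key3 x' a' b' j0).1 ((hD j0).1 ((key2 x a b j0).2 (Or.inr rfl)))
          rcases h1 with h1 | h1
          · exact hij h1.symm
          · exact a' h1.symm
    · by_cases a' : x' = j0
      · exfalso
        have h1 := (hD i0).1 ((key3 x a b i0).2 (Or.inl rfl))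
        exact h1 (key1 x' i0 a')
      · by_cases b' : p x' ≠ p j0
        · exfalso
          have h1 := (key3 x a b j0).1 ((hD j0).2 ((key2 x' a' b' j0).2 (Or.inr rfl)))
          rcases h1 with h1 | h1
          · exact hij h1.symm
          · exact a h1.symm
        · have h1 := (key3 x' a' b' x).1 ((hD x).1 ((key3 x a b x).2 (Or.inr rfl)))
          rcases h1 with h1 | h1
          · exfalso
            apply b
            rw [h1]
            exact h0
          · exact h1

theorem counting (Bad : Finset (Coloring n k)) (sel : Coloring n k → Fin n)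
    (lab : Fin n → Fin k → ℕ)
    (h1 : ∀ c ∈ Bad, ∃ e e', lab (sel c) e ≠ lab (sel c) e')
    (h2 : ∀ c ∈ Bad, ∀ c', (∀ v, v ≠ sel c → c' v = c v) → sel c' = sel c)
    (h3 : ∀ c ∈ Bad, ∀ c' ∈ Bad, (∀ v, v ≠ sel c → c' v = c v) →
      ∀ i, lab (sel c) ((c (sel c)).symm i) = lab (sel c) ((c' (sel c)).symm i)) :
    k * Bad.card ≤ Fintype.card (Coloring n k) := by
  classical
  rcases Nat.eq_zero_or_pos k with hk0 | hk0
  · subst hk0
    simp
  -- the pattern at a vertex
  let pat : Coloring n k → Fin k → ℕ := fun c i => lab (sel c) ((c (sel c)).symm i)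
  have hij : ∀ p : Fin k → ℕ, ∃ ij : Fin k × Fin k, (∃ i j, p i ≠ p j) → p ij.1 ≠ p ij.2 := by
    intro p
    by_cases h : ∃ i j, p i ≠ p j
    · obtain ⟨i, j, h'⟩ := h
      exact ⟨(i, j), fun _ => h'⟩
    · exact ⟨(⟨0, hk0⟩, ⟨0, hk0⟩), fun h' => absurd h' h⟩
  choose ij hij using hij
  have hpat : ∀ c ∈ Bad, pat c (ij (pat c)).1 ≠ pat c (ij (pat c)).2 := by
    intro c hc
    apply hij
    obtain ⟨e, e', he⟩ := h1 c hc
    refine ⟨c (sel c) e, c (sel c) e', ?_⟩
    simpa [pat] using he
  let pi : Coloring n k → Fin k → Equiv.Perm (Fin k) := fun c x =>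
    Counting_pi (pat c) (ij (pat c)).1 (ij (pat c)).2 x
  let F : Coloring n k × Fin k → Coloring n k := fun cx =>
    Function.update cx.1 (sel cx.1) ((pi cx.1 cx.2).symm * cx.1 (sel cx.1))
  have hinj : Set.InjOn F ↑(Bad ×ˢ (univ : Finset (Fin k))) := by
    rintro ⟨c, x⟩ hc ⟨c', x'⟩ hc' hF
    have hc1 : c ∈ Bad := (mem_product.1 hc).1
    have hc1' : c' ∈ Bad := (mem_product.1 hc').1
    have e1 : sel (F (c, x)) = sel c := h2 c hc1 _ (by
      intro v hv
      simp only [F, Function.update_of_ne hv])
    have e2 : sel (F (c', x')) = sel c' := h2 c' hc1' _ (by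
      intro v hv
      simp only [F, Function.update_of_ne hv])
    have hs : sel c = sel c' := by rw [← e1, ← e2, hF]
    have hoff : ∀ v, v ≠ sel c → c' v = c v := by
      intro v hv
      have h4 := congrFun hF v
      simp only [F] at h4
      rw [Function.update_of_ne hv, Function.update_of_ne (by rw [← hs]; exact hv)] at h4
      exact h4.symm
    have hp : pat c = pat c' := by
      funext i
      simp only [pat]
      rw [h3 c hc1 c' hc1' hoff i, hs]
    have hat : (pi c x).symm * c (sel c) = (pi c' x').symm * c' (sel c') := by
      have h4 := congrFun hF (sel c)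
      simp only [F] at h4
      rw [Function.update_self, hs, Function.update_self] at h4
      rw [hs]
      exact h4
    have hxx : x = x' := by
      refine Counting_pi_inj (pat c) (ij (pat c)).1 (ij (pat c)).2 (hpat c hc1) x x' ?_
      intro i
      have h5 : ∀ (d : Coloring n k) (y : Fin k) (i : Fin k),
          pat d (pi d y i) = lab (sel d) (((pi d y).symm * d (sel d)).symm i) := by
        intro d y i
        simp only [pat]
        rfl
      have h6 := h5 c x i
      have h7 := h5 c' x' i
      rw [hat, hs, ← h7, ← hp] at h6
      have h8 : pi c' x' = Counting_pi (pat c) (ij (pat c)).1 (ij (pat c)).2 x' := by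
        simp only [pi]
        rw [hp]
      rw [h8] at h6
      exact h6
    subst hxx
    have hpi : pi c x = pi c' x := by
      simp only [pi]
      rw [hp]
    rw [hpi] at hat
    have hcc : c (sel c) = c' (sel c') := mul_left_cancel hat
    have : c = c' := by
      funext v
      by_cases hv : v = sel c
      · rw [hv, hcc, hs]
      · exact (hoff v hv).symm
    rw [this]
  have hcard := card_image_of_injOn hinj
  rw [card_product, card_univ, Fintype.card_fin] at hcard
  calc k * Bad.card = ((Bad ×ˢ (univ : Finset (Fin k))).image F).card := by rw [hcard, mul_comm]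
    _ ≤ Fintype.card (Coloring n k) := card_le_univ _

end Pool.Agent.H82.SR
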