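import Pool.Agent.H10.Sync.Defs
import Pool.Agent.H10.Sync.Automaton

/-!
# Timed vertices, critical vertices, admissible digraphs

Definitions for the theorem on the synchronizing ratio (project SR, MP_b0a4d3_co).
`OutRegular`, `Coloring`, `step`, `Synchronizing`, `syncRatio`, `Reach`, `Primitive` are those of
`Pool.Agent.H10.Sync.Defs`; `run`, `Merg`, `Stab`, `IsSync` those of
`Pool.Agent.H10.Sync.Automaton`.
-/

namespace Pool.Agent.H82.SR

open Finset Polynomial
open Pool.Agent.H10.Sync

variable {n k : ℕ}

/-- `Height G z g v`: the vertex `v` has height `g` over `z`, that is, every walk which starts at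
`v` meets `z` for the first time after exactly `g` steps. -/
def Height (G : OutRegular n k) (z : Fin n) : ℕ → Fin n → Prop
  | 0, v => v = z
  | g + 1, v => v ≠ z ∧ ∀ e, Height G z g (G v e)

/-- `v` is timed over `z` if it has some height over `z`. -/
def Timed (G : OutRegular n k) (z v : Fin n) : Prop := ∃ g, Height G z g v

/-- Two vertices have the same type over `z` if they are equal or are timed vertices of the same
height. -/
def SameType (G : OutRegular n k) (z a b : Fin n) : Prop :=
  a = b ∨ ∃ g, Height G z g a ∧ Height G z g b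

/-- A vertex is critical over `z` if all its out-neighbours are timed, but do not all have the same
height. -/
def Critical (G : OutRegular n k) (z u : Fin n) : Prop :=
  (∀ e, Timed G z (G u e)) ∧ ∃ e e', ¬ SameType G z (G u e) (G u e')

/-- A vertex is ordinary over `z` if it has a non-timed out-neighbour and at least two
out-neighbours. -/
def Ordinary (G : OutRegular n k) (z u : Fin n) : Prop :=
  ∃ e e', ¬ Timed G z (G u e) ∧ G u e' ≠ G u e

/-- The digraph is admissible with respect to `z` if

* whenever all edges leaving a vertex `u` go to the same non-timed vertex `y`, all edges entering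
  `y` leave `u`;
* every nonempty set `A` of ordinary vertices contains a vertex `u` with an out-neighbour whose
  type is not the type of any out-neighbour of another member of `A`. -/
def Admissible (G : OutRegular n k) (z : Fin n) : Prop :=
  (∀ u y, ¬ Timed G z y → (∀ e, G u e = y) → ∀ v e, G v e = y → v = u) ∧
  ∀ A : Finset (Fin n), A.Nonempty → (∀ u ∈ A, Ordinary G z u) →
    ∃ u ∈ A, ∃ e, ∀ v ∈ A, v ≠ u → ∀ e', ¬ SameType G z (G v e') (G u e)

open Classical in
/-- The height of a timed vertex (`0` for a vertex which is not timed). -/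
noncomputable def hgt (G : OutRegular n k) (z v : Fin n) : ℕ :=
  if h : Timed G z v then h.choose else 0

/-- The core: the vertex `z` and the vertices which are not timed. -/
def Core (G : OutRegular n k) (z v : Fin n) : Prop := v = z ∨ ¬ Timed G z v

open Classical in
/-- The table of the induced automaton on the core, extended by `z` outside the core: the edge of
color `i` of a core vertex is followed, and a timed head is replaced by `z`. -/
noncomputable def table (G : OutRegular n k) (z : Fin n) (c : Coloring n k) (u : Fin n)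
    (i : Fin k) : Fin n :=
  if Core G z u then (if Timed G z (step G c u i) then z else step G c u i) else z

/-- The weight of the letter `i`. -/
noncomputable def wt (ξ : Fin k → ℚ) (i : Fin k) : ℚ[X] := C (1 / (k : ℚ)) + C (ξ i) * X

/-- The averaging operator of an automaton. -/
noncomputable def avg (ξ : Fin k → ℚ) (δ : Fin n → Fin k → Fin n) :
    (Fin n → ℚ[X]) →ₗ[ℚ[X]] (Fin n → ℚ[X]) where
  toFun h := fun v => ∑ i, wt ξ i * h (δ v i)
  map_add' h h' := by
    funext v
    simp only [Pi.add_apply, mul_add, sum_add_distrib]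
  map_smul' a h := by
    funext v
    simp only [Pi.smul_apply, smul_eq_mul, RingHom.id_apply, mul_sum]
    exact sum_congr rfl fun i _ => by ring

theorem avg_apply (ξ : Fin k → ℚ) (δ : Fin n → Fin k → Fin n) (h : Fin n → ℚ[X]) (v : Fin n) :
    avg ξ δ h v = ∑ i, wt ξ i * h (δ v i) := rfl

/-- The difference function: the value at `v` is `1` if the word `w ++ w0` takes `v` to `p`, `-1`
if it takes `v` to `q`, and `0` otherwise (when `p ≠ q`). -/
def dif (δ : Fin n → Fin k → Fin n) (w0 : List (Fin k)) (p q : Fin n) (w : List (Fin k))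
    (v : Fin n) : ℚ :=
  (if run δ v (w ++ w0) = p then 1 else 0) - (if run δ v (w ++ w0) = q then 1 else 0)

/-- `Sep δ w0 p q`: the states `p ≠ q` belong to the image of every word ending in `w0`, and there
is a nonempty set of states in which all words ending in `w0` take equally many states to `p` and
to `q`. -/
def Sep (δ : Fin n → Fin k → Fin n) (w0 : List (Fin k)) (p q : Fin n) : Prop :=
  p ≠ q ∧ (∀ w, ∃ v, run δ v (w ++ w0) = p) ∧ (∀ w, ∃ v, run δ v (w ++ w0) = q) ∧
  ∃ S : Finset (Fin n), S.Nonempty ∧ ∀ w,
    (S.filter fun s => run δ s (w ++ w0) = p).card =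
      (S.filter fun s => run δ s (w ++ w0) = q).card

/-- The conditions on the direction `ξ`. -/
def Good (ξ : Fin k → ℚ) : Prop :=
  ∑ i, ξ i = 0 ∧ (∀ I : Finset (Fin k), I.Nonempty → I ≠ univ → ∑ i ∈ I, ξ i ≠ 0) ∧
    ∀ I J : Finset (Fin k), I.card = J.card → ∑ i ∈ I, ξ i = ∑ i ∈ J, ξ i → I = J

/-- The coefficients of the relation between the tails: `Dco G z c ξ a m` is the sum over the
vertices `u` of `a u` times the sum of the `ξ i` over the colors `i` of `u` leading to a timed
vertex of height at least `m`. -/
noncomputable def Dco (G : OutRegular n k) (z : Fin n) (c : Coloring n k) (ξ : Fin k → ℚ)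
    (a : Fin n → ℚ) (m : ℕ) : ℚ :=
  ∑ u, a u * ∑ i with m ≤ hgt G z (step G c u i), ξ i

/-- The functional `L` of the proof. -/
noncomputable def funL (G : OutRegular n k) (z : Fin n) (c : Coloring n k) (ξ : Fin k → ℚ)
    (φ : Fin n → ℚ[X]) : (Fin n → ℚ[X]) →ₗ[ℚ[X]] ℚ[X] :=
  ∑ u, φ u • (LinearMap.proj u + ∑ i, wt ξ i • ∑ j ∈ range (hgt G z (step G c u i)),
    (LinearMap.proj (step G c u i)).comp ((avg ξ (step G c)) ^ j))

theorem funL_apply (G : OutRegular n k) (z : Fin n) (c : Coloring n k) (ξ : Fin k → ℚ)
    (φ : Fin n → ℚ[X]) (h : Fin n → ℚ[X]) :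
    funL G z c ξ φ h = ∑ u, φ u * (h u + ∑ i, wt ξ i * ∑ j ∈ range (hgt G z (step G c u i)),
      ((avg ξ (step G c)) ^ j) h (step G c u i)) := by
  simp [funL, mul_add]

/-- `φ` is a stationary vector of the automaton `τ` with the weights `wt ξ`. -/
def Stationary (ξ : Fin k → ℚ) (τ : Fin n → Fin k → Fin n) (φ : Fin n → ℚ[X]) : Prop :=
  ∀ y, ∑ u, φ u * ∑ i with τ u i = y, wt ξ i = φ y

open Classical in
/-- What the proof obtains from a colouring which is not synchronizing. -/
structure Wit (G : OutRegular n k) (z : Fin n) (c : Coloring n k) (ξ : Fin k → ℚ)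
    (a : Fin n → ℚ) : Prop where
  ne : ∃ u, a u ≠ 0
  off : ∀ u, ¬ Core G z u → a u = 0
  type : ∀ t, ∑ u, a u * ∑ i with SameType G z (step G c u i) t, ξ i = 0
  pass : ∀ u y, ¬ Timed G z y → (∀ e, G u e = y) → (∀ v e, G v e = y → v = u) → a y = a u
  dco : ∀ m, 1 ≤ m → Dco G z c ξ a m = 0

end Pool.Agent.H82.SR
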