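import Pool.Agent.H82.SR.Hgt

/-!
# SR ExistsCritical

In an admissible primitive digraph a witness of a colouring which is not synchronizing does not
vanish at some critical vertex.

Proof. Suppose that `a u = 0` for all critical `u`. Let `δ = step G c`.

(1) `a u = 0` for all ordinary `u`: let `A` be the set of the ordinary `u` with `a u ≠ 0` and suppose
that it is nonempty. Take `u ∈ A` and `e` from `hadm.2`, `t = G u e`. In
`∑ v, a v * ∑ i with SameType G z (δ v i) t, ξ i = 0` (`hw.type t`) the terms are as follows. For
`v ∈ A`, `v ≠ u`, the filter is empty. For `v ∉ A`: either `a v = 0`, or `v` is neither critical nor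
ordinary; then all out-neighbours of `v` have the same type (if `v` is not ordinary and has an
out-neighbour which is not timed, then all out-neighbours are equal; if all out-neighbours are
timed and `v` is not critical, they have pairwise the same type), so the filter is empty or
everything (`SameType.symm`, `SameType.trans`) and the sum of `ξ i` is `0` in both cases. So
`a u * ∑ i with SameType G z (δ u i) t, ξ i = 0`. The filter is not empty (`i = c u e`,
`step_color`), and it is not everything, because `u` is ordinary: it has a not timed out-neighbour
`y` and another out-neighbour `y' ≠ y`, which do not have the same type, so they are not both of the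
type of `t`. By `hξ` (`Good`) the sum of the `ξ i` is not zero, so `a u = 0`, contradiction.

(2) So if `a u ≠ 0` then all out-neighbours of `u` have the same type; moreover `u` is in the core by
`hw.off`.

(3) Suppose that all out-neighbours of `z` are timed and of the same type. Then the set of timed
vertices is closed under taking out-neighbours (a timed `v ≠ z` has a height `g + 1` and its
out-neighbours have height `g`), so by strong connectivity (`hG.1 z v`; induction on the walk) all
vertices are timed, and for all `v e e'`, `SameType G z (G v e) (G v e')`. So by `SameType.stab` and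
`sync_of_all_stab hG c` the colouring is synchronizing; contradiction.

(4) So (3) does not hold. Let `R` be the set of the `u` with `a u ≠ 0`. It is nonempty. It is closed
under taking out-neighbours: let `u ∈ R`. By (2) `u` is in the core and all its out-neighbours have
the same type. If they are timed, they have the same height `g` (there is at least one, `1 ≤ k`);
if `u ≠ z` then `u` would have height `g + 1`, against `u` in the core (`Core` would say that `u` is
not timed); if `u = z` this is the situation (3), which is excluded. So they are not timed, hence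
all equal to one `y` (`sameType_iff_of_not_timed`), and `a y = a u ≠ 0` by `hw.pass` and
`hadm.1`. By strong connectivity `R` is everything, so by (2) for all `v e e'`,
`SameType G z (G v e) (G v e')`, and the colouring is synchronizing as in (3); contradiction.
-/

namespace Pool.Agent.H82.SR

open Finset Polynomial
open Pool.Agent.H10.Sync

variable {n k : ℕ}

private theorem ec_reach {G : OutRegular n k} {R : Fin n → Prop}
    (hR : ∀ u, R u → ∀ e, R (G u e)) {l : ℕ} {u v : Fin n} (h : Reach G l u v) (hu : R u) :
    R v := by
  induction l generalizing u with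
  | zero =>
    have h' : u = v := h
    rwa [← h']
  | succ l ih =>
    obtain ⟨e, he⟩ := h
    exact ih he (hR u hu e)

/-- If `u` is neither critical nor ordinary then all out-neighbours have the same type. -/
private theorem ec_same {G : OutRegular n k} {z u : Fin n} (h1 : ¬ Critical G z u)
    (h2 : ¬ Ordinary G z u) (e e' : Fin k) : SameType G z (G u e) (G u e') := by
  by_cases h : ∃ e0, ¬ Timed G z (G u e0)
  · obtain ⟨e0, h0⟩ := h
    have h3 : ∀ e', G u e' = G u e0 := by
      intro e'
      by_contra h4
      exact h2 ⟨e0, e', h0, h4⟩
    rw [h3 e, h3 e']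
    exact SameType.refl _
  · push Not at h
    by_contra h3
    exact h1 ⟨h, e, e', h3⟩

open Classical in
private theorem ec_ordinary (hk : 2 ≤ k) {G : OutRegular n k} {z : Fin n}
    (hadm : Admissible G z) {c : Coloring n k} {ξ : Fin k → ℚ}
    (hξ : Good ξ) {a : Fin n → ℚ} (hw : Wit G z c ξ a) (hcr : ∀ u, Critical G z u → a u = 0)
    (u : Fin n) (hu : Ordinary G z u) : a u = 0 := by
  have hk0 : 0 < k := by omega
  by_contra hau
  set A : Finset (Fin n) := univ.filter fun u => Ordinary G z u ∧ a u ≠ 0 with hA
  have hmem : ∀ v, v ∈ A ↔ Ordinary G z v ∧ a v ≠ 0 := by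
    intro v
    simp [hA]
  have hne : A.Nonempty := ⟨u, (hmem u).2 ⟨hu, hau⟩⟩
  obtain ⟨u', hu'A, e, hsep⟩ := hadm.2 A hne fun v hv => ((hmem v).1 hv).1
  obtain ⟨hu'o, hu'a⟩ := (hmem u').1 hu'A
  have ht := hw.type (G u' e)
  rw [Finset.sum_eq_single u'] at ht
  · rcases mul_eq_zero.1 ht with h | h
    · exact hu'a h
    · refine hξ.2.1 _ ?_ ?_ h
      · refine ⟨c u' e, ?_⟩
        rw [mem_filter]
        refine ⟨mem_univ _, ?_⟩
        rw [step_color]
        exact SameType.refl _
      · intro hI
        obtain ⟨e1, e2, h1, h2⟩ := hu'o
        have hall : ∀ e', SameType G z (G u' e') (G u' e) := by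
          intro e'
          have h3 : c u' e' ∈ (univ : Finset (Fin k)) := mem_univ _
          rw [← hI, mem_filter, step_color] at h3
          exact h3.2
        have h4 : SameType G z (G u' e2) (G u' e1) := (hall e2).trans hk0 (hall e1).symm
        exact h2 ((sameType_iff_of_not_timed h1).1 h4)
  · intro v _ hv
    by_cases hvA : v ∈ A
    · have h1 : (univ.filter fun i => SameType G z (step G c v i) (G u' e)) = ∅ := by
        rw [filter_eq_empty_iff]
        intro i _
        exact hsep v hvA hv _
      rw [h1, sum_empty, mul_zero]
    · by_cases hav : a v = 0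
      · rw [hav, zero_mul]
      · have h1 : ¬ Critical G z v := fun h => hav (hcr v h)
        have h2 : ¬ Ordinary G z v := fun h => hvA ((hmem v).2 ⟨h, hav⟩)
        by_cases hex : ∃ i, SameType G z (step G c v i) (G u' e)
        · obtain ⟨i, hi⟩ := hex
          have h3 : (univ.filter fun i => SameType G z (step G c v i) (G u' e)) = univ := by
            rw [filter_eq_self]
            intro j _
            exact (ec_same h1 h2 _ _).trans hk0 hi
          rw [h3, hξ.1, mul_zero]
        · push Not at hex
          have h3 : (univ.filter fun i => SameType G z (step G c v i) (G u' e)) = ∅ := by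
            rw [filter_eq_empty_iff]
            intro i _
            exact hex i
          rw [h3, sum_empty, mul_zero]
  · intro h
    exact absurd (mem_univ _) h

private theorem ec_sync {G : OutRegular n k} (hG : Primitive G) {z : Fin n} (hk0 : 0 < k)
    (c : Coloring n k) (h : ∀ v e e', SameType G z (G v e) (G v e')) : Synchronizing G c :=
  sync_of_all_stab hG c fun v e e' => (h v e e').stab c hk0

private theorem ec_three {G : OutRegular n k} (hG : Primitive G) {z : Fin n} (hk0 : 0 < k)
    (c : Coloring n k) (h1 : ∀ e, Timed G z (G z e)) (h2 : ∀ e e', SameType G z (G z e) (G z e')) :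
    Synchronizing G c := by
  have hcl : ∀ u, Timed G z u → ∀ e, Timed G z (G u e) := by
    rintro u ⟨g, hg⟩ e
    by_cases hu : u = z
    · rw [hu]; exact h1 e
    · cases g with
      | zero => exact absurd hg hu
      | succ g => exact ⟨g, hg.2 e⟩
  have hall : ∀ v, Timed G z v := by
    intro v
    obtain ⟨l, hl⟩ := hG.1 z v
    exact ec_reach hcl hl timed_z
  refine ec_sync hG hk0 (z := z) c fun v e e' => ?_
  by_cases hv : v = z
  · rw [hv]; exact h2 e e'
  · obtain ⟨g, hg⟩ := hall v
    cases g with
    | zero => exact absurd hg hv
    | succ g => exact Or.inr ⟨g, hg.2 e, hg.2 e'⟩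

theorem exists_critical (hk : 2 ≤ k) {G : OutRegular n k} (hG : Primitive G) {z : Fin n}
    (hadm : Admissible G z) {c : Coloring n k} (hc : ¬ Synchronizing G c) {ξ : Fin k → ℚ}
    (hξ : Good ξ) {a : Fin n → ℚ} (hw : Wit G z c ξ a) : ∃ u, Critical G z u ∧ a u ≠ 0 := by
  have hk0 : 0 < k := by omega
  by_contra hcon
  push Not at hcon
  have hord := ec_ordinary hk hadm hξ hw hcon
  have hsame : ∀ u, a u ≠ 0 → ∀ e e', SameType G z (G u e) (G u e') := fun u hu =>
    ec_same (fun h => hu (hcon u h)) (fun h => hu (hord u h))
  have hcl : ∀ u, a u ≠ 0 → ∀ e, a (G u e) ≠ 0 := by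
    intro u hu e
    have hcore : Core G z u := by
      by_contra h
      exact hu (hw.off u h)
    have hs := hsame u hu
    by_cases ht : Timed G z (G u e)
    · exfalso
      have hall : ∀ e', Height G z (hgt G z (G u e)) (G u e') := by
        intro e'
        obtain ⟨h1, h2⟩ := (sameType_iff_of_timed ht hk0).1 (hs e' e)
        rw [← h2]
        exact height_hgt h1
      by_cases huz : u = z
      · subst huz
        exact hc (ec_three hG hk0 c (fun e' => ⟨_, hall e'⟩) hs)
      · have htu : Timed G z u := ⟨hgt G z (G u e) + 1, huz, hall⟩
        rcases hcore with h | h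
        · exact huz h
        · exact h htu
    · have hall : ∀ e', G u e' = G u e := fun e' => (sameType_iff_of_not_timed ht).1 (hs e' e)
      rw [hw.pass u (G u e) ht hall (hadm.1 u (G u e) ht hall)]
      exact hu
  obtain ⟨u0, hu0⟩ := hw.ne
  refine hc (ec_sync hG hk0 (z := z) c fun v e e' => ?_)
  obtain ⟨l, hl⟩ := hG.1 u0 v
  exact hsame v (ec_reach (R := fun u => a u ≠ 0) hcl hl hu0) e e'

end Pool.Agent.H82.SR
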