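import Pool.Agent.H82.SR.Defs

/-!
# SR ExistsSep

An automaton which is not synchronizing has a word `w0` and two states `p ≠ q` with `Sep δ w0 p q`.

Proof. Let `w0` be a word for which the cardinality of the image `S = univ.image (fun v => run δ v w0)`
is minimal among all words (`WellFounded.min`, `Nat.find` or
`exists_minimal...`). `S` is nonempty as `Fin n` is. If `S` had exactly one element, `w0` would show
that the automaton is synchronizing; so there are `p ≠ q` in `S` (`Finset.one_lt_card`).
For every word `w` the image of `w ++ w0` is contained in `S` (`run_append`) and has at least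
`S.card` elements, so it is equal to `S`. This gives the second and third requirement.
Fourth requirement: the set `S` itself. For every word `w` the map
`s ↦ run δ s (w ++ w0)` maps `S` to `S`, and its image `S.image (fun s => run δ s (w ++ w0))`
is the image of the word `w0 ++ (w ++ w0)`, which has at least `S.card` elements by minimality;
so the map is a bijection of `S` onto `S` (`Finset.card_image_iff`, `Finset.eq_of_subset_of_card_le`,
`Finset.surj_on_of_inj_on_of_card_le` ...). Hence both filters have exactly one element.
-/

namespace Pool.Agent.H82.SR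

open Finset Polynomial
open Pool.Agent.H10.Sync

variable {n k : ℕ}

private theorem ExistsSep_card {S : Finset (Fin n)} {f : Fin n → Fin n}
    (hinj : Set.InjOn f (S : Set (Fin n))) (himg : S.image f = S) {p : Fin n} (hp : p ∈ S) :
    (S.filter fun s => f s = p).card = 1 := by
  rw [← himg, mem_image] at hp
  obtain ⟨s, hs, hsp⟩ := hp
  rw [card_eq_one]
  refine ⟨s, ?_⟩
  ext t
  rw [mem_filter, mem_singleton]
  constructor
  · rintro ⟨ht, htp⟩
    exact hinj (mem_coe.2 ht) (mem_coe.2 hs) (htp.trans hsp.symm)
  · rintro rfl
    exact ⟨hs, hsp⟩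

theorem exists_sep [Nonempty (Fin n)] (δ : Fin n → Fin k → Fin n) (hn : ¬ IsSync δ) :
    ∃ w0 p q, Sep δ w0 p q := by
  set f : List (Fin k) → ℕ := fun w => ((univ : Finset (Fin n)).image fun v => run δ v w).card
    with hf
  have hdec : DecidablePred (fun m => ∃ w, f w = m) := Classical.decPred _
  have hex : ∃ m, ∃ w, f w = m := ⟨_, [], rfl⟩
  obtain ⟨w0, hw0⟩ := Nat.find_spec hex
  have hmin : ∀ w, f w0 ≤ f w := by
    intro w
    rw [hw0]
    exact Nat.find_min' hex ⟨w, rfl⟩
  set S : Finset (Fin n) := (univ : Finset (Fin n)).image fun v => run δ v w0 with hS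
  have hmin' : ∀ w, S.card ≤ ((univ : Finset (Fin n)).image fun v => run δ v w).card := hmin
  have hcard : 1 < S.card := by
    by_contra hcon
    have h1 : S.card ≤ 1 := not_lt.1 hcon
    rw [card_le_one] at h1
    apply hn
    refine ⟨w0, run δ (Classical.arbitrary (Fin n)) w0, fun q => ?_⟩
    exact h1 _ (mem_image_of_mem _ (mem_univ q)) _ (mem_image_of_mem _ (mem_univ _))
  obtain ⟨p, hp, q, hq, hpq⟩ := one_lt_card.1 hcard
  have hT : ∀ w, ((univ : Finset (Fin n)).image fun v => run δ v (w ++ w0)) = S := by
    intro w
    apply eq_of_subset_of_card_le _ (hmin' _)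
    intro a ha
    rw [mem_image] at ha
    obtain ⟨v, _, rfl⟩ := ha
    rw [run_append]
    exact mem_image_of_mem (fun v => run δ v w0) (mem_univ _)
  have hreach : ∀ {r : Fin n}, r ∈ S → ∀ w, ∃ v, run δ v (w ++ w0) = r := by
    intro r hr w
    rw [← hT w, mem_image] at hr
    obtain ⟨v, _, hv⟩ := hr
    exact ⟨v, hv⟩
  refine ⟨w0, p, q, hpq, hreach hp, hreach hq, S, ⟨p, hp⟩, ?_⟩
  intro w
  have h1 : (S.image fun s => run δ s (w ++ w0)) =
      (univ : Finset (Fin n)).image fun v => run δ v (w0 ++ (w ++ w0)) := by
    rw [hS, image_image]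
    apply image_congr
    intro v _
    simp only [Function.comp_apply]
    rw [← run_append]
  have h2 : S.card ≤ (S.image fun s => run δ s (w ++ w0)).card := by
    rw [h1]
    exact hmin' _
  have hinj : Set.InjOn (fun s => run δ s (w ++ w0)) (S : Set (Fin n)) :=
    card_image_iff.1 (le_antisymm card_image_le h2)
  have himg : (S.image fun s => run δ s (w ++ w0)) = S := by
    apply eq_of_subset_of_card_le _ h2
    intro a ha
    rw [mem_image] at ha
    obtain ⟨v, _, rfl⟩ := ha
    rw [← hT w]
    exact mem_image_of_mem (fun v => run δ v (w ++ w0)) (mem_univ _)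
  rw [ExistsSep_card hinj himg hp, ExistsSep_card hinj himg hq]

end Pool.Agent.H82.SR
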