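import Pool.Agent.H82.SR.Defs

/-!
# SR ExistsStationary

Existence of a nonzero stationary vector with entries in `ℚ[X]`.

Proof. Let `A : Matrix (Fin n) (Fin n) ℚ[X]` be `A u y = ∑ i with τ u i = y, wt ξ i`. Every row of
`A` sums to `∑ i, wt ξ i = C (k * (1 / k)) + C (∑ ξ i) * X = 1` (`Finset.sum_fiberwise`), so
`(A - 1).mulVec (fun _ => 1) = 0` and, as `fun _ => 1` is not zero (`Fin n` is nonempty),
`(A - 1).det = 0` by `Matrix.exists_mulVec_eq_zero_iff`. By `Matrix.exists_vecMul_eq_zero_iff` there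
is `φ ≠ 0` with `Matrix.vecMul φ (A - 1) = 0`, that is, `φ` is stationary.
-/

namespace Pool.Agent.H82.SR

open Finset Polynomial
open Pool.Agent.H10.Sync

variable {n k : ℕ}

theorem exists_stationary (hk : 1 ≤ k) [Nonempty (Fin n)] (ξ : Fin k → ℚ) (hξ : ∑ i, ξ i = 0)
    (τ : Fin n → Fin k → Fin n) : ∃ φ : Fin n → ℚ[X], φ ≠ 0 ∧ Stationary ξ τ φ := by
  classical
  let A : Matrix (Fin n) (Fin n) ℚ[X] := Matrix.of fun u y => ∑ i with τ u i = y, wt ξ i
  have hw : ∑ i, wt ξ i = 1 := by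
    simp only [wt, sum_add_distrib, ← sum_mul, ← map_sum, hξ]
    rw [sum_const, card_univ, Fintype.card_fin, map_zero, zero_mul, add_zero]
    have hk0 : (k : ℚ) ≠ 0 := by
      have : k ≠ 0 := by omega
      exact_mod_cast this
    rw [nsmul_eq_mul, mul_one_div_cancel hk0, map_one]
  have hrow : ∀ u, ∑ y, A u y = 1 := by
    intro u
    have h1 := sum_fiberwise univ (fun i => τ u i) (fun i => wt ξ i)
    rw [hw] at h1
    exact h1
  have hmul : (A - 1).mulVec (fun _ => 1) = 0 := by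
    funext u
    rw [Matrix.sub_mulVec, Matrix.one_mulVec]
    simp [Matrix.mulVec, dotProduct, hrow]
  have hne : (fun _ => 1 : Fin n → ℚ[X]) ≠ 0 := by
    intro h
    obtain ⟨v⟩ := (inferInstance : Nonempty (Fin n))
    exact one_ne_zero (congrFun h v)
  have hdet : (A - 1).det = 0 := Matrix.exists_mulVec_eq_zero_iff.1 ⟨fun _ => 1, hne, hmul⟩
  obtain ⟨φ, hφ, h⟩ := Matrix.exists_vecMul_eq_zero_iff.2 hdet
  refine ⟨φ, hφ, fun y => ?_⟩
  have h1 := congrFun h y
  rw [Matrix.vecMul_sub, Matrix.vecMul_one] at h1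
  simp only [Pi.sub_apply, Pi.zero_apply] at h1
  exact sub_eq_zero.1 h1

end Pool.Agent.H82.SR
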