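import Pool.Agent.H82.SR.Hgt

/-!
# SR FunLDif

The value of the functional `funL` at a difference function of a long word.

Proof. Write `δ = step G c`, `M = avg ξ δ`, `d w v = C (dif δ w0 p q w v)`.

(1) If `Height G z g v` and `g ≤ w.length` then `d w v = d (w.drop g) z` (`Height.run_eq` applied to
the word `w ++ w0`, `List.drop_append_of_le_length`).

(2) If `Height G z (j + m) v` (`j` arbitrary) and `m ≤ w.length`, then
`(M ^ j) (d w) v = d (w.drop m) z`: induction on `j`; for `j = 0` this is (1); for `j + 1`,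
`(M ^ (j + 1)) (d w) v = ∑ i, wt ξ i * (M ^ j) (d w) (δ v i)` (`pow_succ'`, `avg_apply`), and `δ v i`
has height `j + m` (`Height.step`), and `∑ i, wt ξ i = 1`.

(3) So, if `v` is timed with `g = hgt G z v`, `∑ j ∈ range g, (M ^ j) (d w) v = ∑ j ∈ range g,
d (w.drop (g - j)) z = ∑ m ∈ Icc 1 g, d (w.drop m) z` (`Finset.sum_bij` or `Finset.sum_nbij'` with
`j ↦ g - j`). If `v` is not timed, `hgt G z v = 0` and both sides are `0`.

(4) Insert this in `funL_apply`.
-/

namespace Pool.Agent.H82.SR

open Finset Polynomial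
open Pool.Agent.H10.Sync

variable {n k : ℕ}

private theorem FunLDif_one {G : OutRegular n k} {z : Fin n} (c : Coloring n k)
    (w0 : List (Fin k)) (p q : Fin n) (w : List (Fin k)) {g : ℕ} {v : Fin n}
    (h : Height G z g v) (hg : g ≤ w.length) :
    dif (step G c) w0 p q w v = dif (step G c) w0 p q (w.drop g) z := by
  unfold dif
  have h1 := h.run_eq c (w ++ w0) (by rw [List.length_append]; omega)
  rw [List.drop_append_of_le_length hg] at h1
  rw [h1]

private theorem FunLDif_wt (hk : 1 ≤ k) (ξ : Fin k → ℚ) (hξ : ∑ i, ξ i = 0) :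
    ∑ i, wt ξ i = 1 := by
  unfold wt
  have h1 : ∑ i, (C (ξ i) : ℚ[X]) = 0 := by rw [← map_sum, hξ, map_zero]
  rw [sum_add_distrib, ← Finset.sum_mul, h1, zero_mul, add_zero, sum_const,
    card_univ, Fintype.card_fin, nsmul_eq_mul]
  have hk' : (k : ℚ) ≠ 0 := by
    have : 0 < k := hk
    exact_mod_cast this.ne'
  rw [← map_natCast (C : ℚ →+* ℚ[X]) k, ← map_mul, mul_one_div_cancel hk', map_one]

private theorem FunLDif_pow (hk : 1 ≤ k) {G : OutRegular n k} {z : Fin n} (c : Coloring n k)
    (ξ : Fin k → ℚ) (hξ : ∑ i, ξ i = 0)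
    (w0 : List (Fin k)) (p q : Fin n) (w : List (Fin k)) {m : ℕ} (hm : m ≤ w.length) (j : ℕ) :
    ∀ v : Fin n, Height G z (j + m) v →
    ((avg ξ (step G c)) ^ j) (fun v => C (dif (step G c) w0 p q w v)) v =
      C (dif (step G c) w0 p q (w.drop m) z) := by
  induction j with
  | zero =>
    intro v hv
    rw [zero_add] at hv
    rw [pow_zero]
    exact congrArg C (FunLDif_one c w0 p q w hv hm)
  | succ j ih =>
    intro v hv
    have hv' : Height G z (j + m + 1) v := by
      have : j + 1 + m = j + m + 1 := by ring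
      rwa [this] at hv
    rw [pow_succ', Module.End.mul_apply, avg_apply]
    have h1 : ∀ i, ((avg ξ (step G c)) ^ j) (fun v => C (dif (step G c) w0 p q w v))
        (step G c v i) = C (dif (step G c) w0 p q (w.drop m) z) := fun i => ih _ (hv'.step c i)
    simp only [h1]
    rw [← Finset.sum_mul, FunLDif_wt hk ξ hξ, one_mul]

private theorem FunLDif_sum (hk : 1 ≤ k) (G : OutRegular n k) (z : Fin n) (c : Coloring n k)
    (ξ : Fin k → ℚ) (hξ : ∑ i, ξ i = 0)
    (w0 : List (Fin k)) (p q : Fin n) (w : List (Fin k)) (hw : ∀ v, hgt G z v ≤ w.length)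
    (v : Fin n) :
    ∑ j ∈ range (hgt G z v),
      ((avg ξ (step G c)) ^ j) (fun v => C (dif (step G c) w0 p q w v)) v =
      ∑ m ∈ Icc 1 (hgt G z v), C (dif (step G c) w0 p q (w.drop m) z) := by
  by_cases ht : Timed G z v
  · have hh := height_hgt ht
    have hl := hw v
    generalize hgt G z v = g at hh hl
    refine Finset.sum_nbij' (fun j => g - j) (fun m => g - m) ?_ ?_ ?_ ?_ ?_
    · intro j hj
      rw [mem_range] at hj
      rw [mem_Icc]
      omega
    · intro m hm
      rw [mem_Icc] at hm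
      rw [mem_range]
      omega
    · intro j hj
      rw [mem_range] at hj
      omega
    · intro m hm
      rw [mem_Icc] at hm
      omega
    · intro j hj
      rw [mem_range] at hj
      apply FunLDif_pow hk c ξ hξ w0 p q w (by omega) j v
      have : j + (g - j) = g := by omega
      rwa [this]
  · rw [hgt_of_not_timed ht]
    simp

theorem funL_dif (hk : 1 ≤ k) (G : OutRegular n k) (z : Fin n) (c : Coloring n k)
    (ξ : Fin k → ℚ) (hξ : ∑ i, ξ i = 0) (φ : Fin n → ℚ[X]) (w0 : List (Fin k)) (p q : Fin n)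
    (w : List (Fin k)) (hw : ∀ v, hgt G z v ≤ w.length) :
    funL G z c ξ φ (fun v => C (dif (step G c) w0 p q w v)) =
      ∑ u, φ u * (C (dif (step G c) w0 p q w u) +
        ∑ i, wt ξ i * ∑ m ∈ Icc 1 (hgt G z (step G c u i)),
          C (dif (step G c) w0 p q (w.drop m) z)) := by
  rw [funL_apply]
  refine sum_congr rfl fun u _ => ?_
  congr 2
  refine sum_congr rfl fun i _ => ?_
  rw [FunLDif_sum hk G z c ξ hξ w0 p q w hw]

end Pool.Agent.H82.SR
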