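import Pool.Agent.H82.SR.Hgt

/-!
# SR FunLInvariant

The functional `funL` is invariant under the averaging operator.

Proof. Write `δ = step G c`, `M = avg ξ δ`, `g u i = hgt G z (δ u i)`.

(1) If `Height G z g v` then `(M ^ g) h v = h z` for all `h`: induction on `g`;
`(M ^ (g + 1)) h v = M ((M ^ g) h) v = ∑ i, wt ξ i * (M ^ g) h (δ v i) = ∑ i, wt ξ i * h z = h z`
because `δ v i` has height `g` (`Height.step`) and `∑ i, wt ξ i = 1`. Consequently, for every `v`:
`(M ^ hgt G z v) h v = h (if Timed G z v then z else v)`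
(`height_hgt`, `hgt_of_not_timed`).

(2) Telescoping: `∑ j ∈ range g, (M ^ j) (M h) a - ∑ j ∈ range g, (M ^ j) h a = (M ^ g) h a - h a`
(`Finset.sum_range_sub`, `(M ^ j) (M h) = (M ^ (j + 1)) h`).

(3) By `funL_apply`, `funL (M h) - funL h = ∑ u, φ u * ((M h) u - h u + ∑ i, wt ξ i * ((M ^ g u i) h
(δ u i) - h (δ u i)))`, and `(M h) u = ∑ i, wt ξ i * h (δ u i)`, so the bracket is
`∑ i, wt ξ i * h (if Timed G z (δ u i) then z else δ u i) - h u`. For `u` in the core this is
`∑ i, wt ξ i * h (table G z c u i) - h u`. For `u` not in the core `φ u = 0`: by stationarity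
`φ u` is a sum over pairs `(u', i)` with `table G z c u' i = u`, and there are no such pairs by
`core_table`.

(4) `∑ u, φ u * ∑ i, wt ξ i * h (τ u i) = ∑ y, (∑ u, φ u * ∑ i with τ u i = y, wt ξ i) * h y
= ∑ y, φ y * h y` for `τ = table G z c` (`Finset.sum_fiberwise`, `Finset.sum_comm`), so the total
is `0`.
-/

namespace Pool.Agent.H82.SR

open Finset Polynomial
open Pool.Agent.H10.Sync

variable {n k : ℕ}

theorem phi_off_core {G : OutRegular n k} {z : Fin n} {c : Coloring n k} {ξ : Fin k → ℚ}
    {φ : Fin n → ℚ[X]} (hφ : Stationary ξ (table G z c) φ) (u : Fin n) (hu : ¬ Core G z u) :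
    φ u = 0 := by
  rw [← hφ u]
  apply Finset.sum_eq_zero
  intro v _
  have : (univ.filter fun i => table G z c v i = u) = ∅ := by
    apply Finset.filter_eq_empty_iff.2
    intro i _ h
    exact hu (h ▸ core_table c v i)
  rw [this, sum_empty, mul_zero]

private theorem FunLInvariant_wt (hk : 1 ≤ k) (ξ : Fin k → ℚ) (hξ : ∑ i, ξ i = 0) :
    ∑ i, wt ξ i = 1 := by
  have e : ∑ i, C (ξ i) = (0 : ℚ[X]) := by
    rw [← map_sum, hξ, map_zero]
  have hk' : (k : ℚ) ≠ 0 := by
    have : 0 < k := hk
    positivity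
  unfold wt
  rw [sum_add_distrib, ← sum_mul, e, zero_mul, add_zero, ← map_sum, sum_const,
    card_univ, Fintype.card_fin, nsmul_eq_mul, mul_one_div_cancel hk', map_one]

private theorem FunLInvariant_pow (hk : 1 ≤ k) (G : OutRegular n k) (z : Fin n)
    (c : Coloring n k) (ξ : Fin k → ℚ) (hξ : ∑ i, ξ i = 0) (h : Fin n → ℚ[X]) (g : ℕ) :
    ∀ v, Height G z g v → ((avg ξ (step G c)) ^ g) h v = h z := by
  induction g with
  | zero =>
    intro v hv
    have hv' : v = z := hv
    rw [hv', pow_zero, Module.End.one_apply]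
  | succ g ih =>
    intro v hv
    rw [pow_succ', Module.End.mul_apply, avg_apply]
    have h1 : ∀ i, wt ξ i * ((avg ξ (step G c)) ^ g) h (step G c v i) = wt ξ i * h z := by
      intro i
      rw [ih _ (hv.step c i)]
    rw [sum_congr rfl fun i _ => h1 i, ← sum_mul, FunLInvariant_wt hk ξ hξ, one_mul]

open Classical in
private theorem FunLInvariant_hgt (hk : 1 ≤ k) (G : OutRegular n k) (z : Fin n)
    (c : Coloring n k) (ξ : Fin k → ℚ) (hξ : ∑ i, ξ i = 0) (h : Fin n → ℚ[X]) (v : Fin n) :
    ((avg ξ (step G c)) ^ (hgt G z v)) h v = h (if Timed G z v then z else v) := by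
  by_cases hv : Timed G z v
  · rw [if_pos hv]
    exact FunLInvariant_pow hk G z c ξ hξ h _ v (height_hgt hv)
  · rw [if_neg hv, hgt_of_not_timed hv, pow_zero, Module.End.one_apply]

private theorem FunLInvariant_tele (G : OutRegular n k) (c : Coloring n k) (ξ : Fin k → ℚ)
    (h : Fin n → ℚ[X]) (a : Fin n) (g : ℕ) :
    ∑ j ∈ range g, ((avg ξ (step G c)) ^ j) (avg ξ (step G c) h) a =
      ∑ j ∈ range g, ((avg ξ (step G c)) ^ j) h a + ((avg ξ (step G c)) ^ g) h a - h a := by
  induction g with
  | zero => simp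
  | succ g ih =>
    rw [sum_range_succ, sum_range_succ, ih]
    have e : ((avg ξ (step G c)) ^ g) (avg ξ (step G c) h) a =
        ((avg ξ (step G c)) ^ (g + 1)) h a := by
      rw [pow_succ, Module.End.mul_apply]
    rw [e]
    ring

theorem funL_invariant (hk : 1 ≤ k) (G : OutRegular n k) (z : Fin n) (c : Coloring n k)
    (ξ : Fin k → ℚ) (hξ : ∑ i, ξ i = 0) (φ : Fin n → ℚ[X])
    (hφ : Stationary ξ (table G z c) φ) (h : Fin n → ℚ[X]) :
    funL G z c ξ φ (avg ξ (step G c) h) = funL G z c ξ φ h := by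
  classical
  have key : ∀ u, φ u * ((avg ξ (step G c)) h u + ∑ i, wt ξ i *
      ∑ j ∈ range (hgt G z (step G c u i)), ((avg ξ (step G c)) ^ j) (avg ξ (step G c) h)
        (step G c u i)) =
      φ u * (h u + ∑ i, wt ξ i * ∑ j ∈ range (hgt G z (step G c u i)),
        ((avg ξ (step G c)) ^ j) h (step G c u i)) +
      (φ u * ∑ i, wt ξ i * h (table G z c u i) - φ u * h u) := by
    intro u
    by_cases hu : Core G z u
    · have h1 : ∀ i, wt ξ i * ∑ j ∈ range (hgt G z (step G c u i)),
          ((avg ξ (step G c)) ^ j) (avg ξ (step G c) h) (step G c u i) =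
          wt ξ i * ∑ j ∈ range (hgt G z (step G c u i)),
            ((avg ξ (step G c)) ^ j) h (step G c u i) +
          wt ξ i * h (table G z c u i) - wt ξ i * h (step G c u i) := by
        intro i
        rw [FunLInvariant_tele, FunLInvariant_hgt hk G z c ξ hξ h]
        have h2 : table G z c u i = if Timed G z (step G c u i) then z else step G c u i := by
          unfold table
          rw [if_pos hu]
        rw [h2]
        ring
      rw [sum_congr rfl fun i _ => h1 i, sum_sub_distrib, sum_add_distrib, avg_apply]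
      ring
    · rw [phi_off_core hφ u hu]
      ring
  have tot : ∑ u, (φ u * ∑ i, wt ξ i * h (table G z c u i) - φ u * h u) = 0 := by
    rw [sum_sub_distrib, sub_eq_zero]
    have h1 : ∀ u, φ u * ∑ i, wt ξ i * h (table G z c u i) =
        ∑ y, (φ u * ∑ i with table G z c u i = y, wt ξ i) * h y := by
      intro u
      rw [← sum_fiberwise (s := univ) (g := fun i => table G z c u i), mul_sum]
      refine sum_congr rfl fun y _ => ?_
      rw [mul_assoc, sum_mul]
      congr 1
      refine sum_congr rfl fun i hi => ?_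
      rw [(mem_filter.1 hi).2]
    rw [sum_congr rfl fun u _ => h1 u, sum_comm]
    refine sum_congr rfl fun y _ => ?_
    rw [← sum_mul, hφ y]
  rw [funL_apply, funL_apply, sum_congr rfl fun u _ => key u, sum_add_distrib, tot, add_zero]

end Pool.Agent.H82.SR
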