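import Pool.Agent.H82.SR.Defs
import Pool.Agent.H10.Sync.Graph

/-! # Heights -/

namespace Pool.Agent.H82.SR

open Finset Polynomial
open Pool.Agent.H10.Sync

variable {n k : ℕ} {G : OutRegular n k} {z : Fin n}

theorem Height.unique (hk : 0 < k) {g g' : ℕ} {v : Fin n} (h : Height G z g v)
    (h' : Height G z g' v) : g = g' := by
  induction g generalizing g' v with
  | zero =>
    cases g' with
    | zero => rfl
    | succ g' => exact absurd h h'.1
  | succ g ih =>
    cases g' with
    | zero => exact absurd h' h.1
    | succ g' => rw [ih (h.2 ⟨0, hk⟩) (h'.2 ⟨0, hk⟩)]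

theorem hgt_eq (hk : 0 < k) {g : ℕ} {v : Fin n} (h : Height G z g v) : hgt G z v = g := by
  have ht : Timed G z v := ⟨g, h⟩
  unfold hgt
  rw [dif_pos ht]
  exact ht.choose_spec.unique hk h

theorem height_hgt {v : Fin n} (h : Timed G z v) : Height G z (hgt G z v) v := by
  unfold hgt
  rw [dif_pos h]
  exact h.choose_spec

theorem hgt_of_not_timed {v : Fin n} (h : ¬ Timed G z v) : hgt G z v = 0 := by
  unfold hgt
  rw [dif_neg h]

theorem timed_z : Timed G z z := ⟨0, rfl⟩

theorem Height.step {g : ℕ} {v : Fin n} (h : Height G z (g + 1) v) (c : Coloring n k)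
    (i : Fin k) : Height G z g (step G c v i) := h.2 _

theorem Height.run_eq {g : ℕ} {v : Fin n} (h : Height G z g v) (c : Coloring n k)
    (w : List (Fin k)) (hw : g ≤ w.length) :
    run (Pool.Agent.H10.Sync.step G c) v w = run (Pool.Agent.H10.Sync.step G c) z (w.drop g) := by
  induction g generalizing v w with
  | zero =>
    have hv : v = z := h
    rw [hv, List.drop_zero]
  | succ g ih =>
    match w, hw with
    | x :: w, hw =>
      rw [run_cons, List.drop_succ_cons]
      exact ih (h.step c x) w (by simpa using hw)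

theorem SameType.symm {a b : Fin n} (h : SameType G z a b) : SameType G z b a := by
  rcases h with h | ⟨g, h1, h2⟩
  · exact Or.inl h.symm
  · exact Or.inr ⟨g, h2, h1⟩

theorem SameType.refl (a : Fin n) : SameType G z a a := Or.inl rfl

theorem SameType.trans (hk : 0 < k) {a b c : Fin n} (h : SameType G z a b)
    (h' : SameType G z b c) : SameType G z a c := by
  rcases h with rfl | ⟨g, h1, h2⟩
  · exact h'
  · rcases h' with rfl | ⟨g', h3, h4⟩
    · exact Or.inr ⟨g, h1, h2⟩
    · have := h2.unique hk h3
      subst this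
      exact Or.inr ⟨g, h1, h4⟩

/-- For a timed vertex `b`, having the type of `b` means being timed of the same height. -/
theorem sameType_iff_of_timed {a b : Fin n} (hb : Timed G z b) (hk : 0 < k) :
    SameType G z a b ↔ Timed G z a ∧ hgt G z a = hgt G z b := by
  constructor
  · rintro (rfl | ⟨g, h1, h2⟩)
    · exact ⟨hb, rfl⟩
    · exact ⟨⟨g, h1⟩, by rw [hgt_eq hk h1, hgt_eq hk h2]⟩
  · rintro ⟨h1, h2⟩
    refine Or.inr ⟨hgt G z b, ?_, height_hgt hb⟩
    rw [← h2]
    exact height_hgt h1

/-- For a vertex `b` which is not timed, having the type of `b` means being `b`. -/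
theorem sameType_iff_of_not_timed {a b : Fin n} (hb : ¬ Timed G z b) :
    SameType G z a b ↔ a = b := by
  constructor
  · rintro (h | ⟨g, h1, h2⟩)
    · exact h
    · exact absurd ⟨g, h2⟩ hb
  · exact Or.inl

theorem SameType.stab {a b : Fin n} (h : SameType G z a b) (c : Coloring n k) (hk : 0 < k) :
    Stab (Pool.Agent.H10.Sync.step G c) a b := by
  rcases h with rfl | ⟨g, h1, h2⟩
  · exact Stab.refl a
  · intro w
    apply Merg.of_run (w := List.replicate g ⟨0, hk⟩)
    rw [← run_append, ← run_append, h1.run_eq c _ (by simp), h2.run_eq c _ (by simp)]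
    exact Merg.refl _

theorem exists_hgt_bound (G : OutRegular n k) (z : Fin n) : ∃ H, ∀ v, hgt G z v ≤ H :=
  ⟨univ.sup (hgt G z), fun v => le_sup (f := hgt G z) (mem_univ v)⟩

/-- The core is preserved by the table. -/
theorem core_table (c : Coloring n k) (u : Fin n) (i : Fin k) : Core G z (table G z c u i) := by
  unfold table
  split_ifs with h1 h2
  · exact Or.inl rfl
  · exact Or.inr h2
  · exact Or.inl rfl

end Pool.Agent.H82.SR
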