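import Pool.Agent.H82.SR.Defs

/-!
# SR Kernel

A function with values in `ℚ[X]` which is fixed by the averaging operator of a strongly connected
automaton is constant.

Proof. Show by strong induction on `m` that the coefficient of `X ^ m` of `h v` does not depend on
`v`. Since `wt ξ i = C (1 / k) + C (ξ i) * X`, the coefficient of `X ^ m` of the identity
`∑ i, wt ξ i * h (δ v i) = h v` reads
`(h v).coeff m = (1 / k) * ∑ i, (h (δ v i)).coeff m + ∑ i, ξ i * (h (δ v i)).coeff (m - 1)`
(the last sum is absent for `m = 0`). By induction `(h (δ v i)).coeff (m - 1)` is a constant `b`, and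
`∑ i, ξ i * b = 0`. So `a v = (h v).coeff m` satisfies `a v = (1 / k) * ∑ i, a (δ v i)`. Take `v`
where `a` is maximal (`Fin n` is nonempty as `u : Fin n`): all `a (δ v i)` are `≤ a v` and their
average is `a v`, so they are all equal to `a v`; hence the set where `a` attains its maximum is
closed under all letters, hence (induction on the word) contains `run δ v w` for all `w`, hence is
everything by strong connectivity.
-/

namespace Pool.Agent.H82.SR

open Finset Polynomial
open Pool.Agent.H10.Sync

variable {n k : ℕ}

private theorem kernel_max (hk : 1 ≤ k) (δ : Fin n → Fin k → Fin n)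
    (hconn : ∀ u v, ∃ w, run δ u w = v) (a : Fin n → ℚ)
    (ha : ∀ v, a v = ∑ i, (1 / (k : ℚ)) * a (δ v i)) (u v : Fin n) : a u = a v := by
  have hk0 : (0 : ℚ) < k := by exact_mod_cast hk
  haveI : Nonempty (Fin n) := ⟨u⟩
  obtain ⟨v0, hv0⟩ := Finite.exists_max a
  -- one step from a maximal vertex
  have hstep : ∀ x, a x = a v0 → ∀ i, a (δ x i) = a v0 := by
    intro x hx i
    by_contra hne
    have hlt : a (δ x i) < a v0 := lt_of_le_of_ne (hv0 _) hne
    have h1 : ∑ j, (1 / (k : ℚ)) * a (δ x j) < ∑ _j : Fin k, (1 / (k : ℚ)) * a v0 := by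
      apply Finset.sum_lt_sum
      · intro j _
        exact mul_le_mul_of_nonneg_left (hv0 _) (by positivity)
      · exact ⟨i, Finset.mem_univ i, mul_lt_mul_of_pos_left hlt (by positivity)⟩
    rw [← ha x, hx, Finset.sum_const, Finset.card_univ, Fintype.card_fin, nsmul_eq_mul] at h1
    have h2 : (k : ℚ) * (1 / (k : ℚ) * a v0) = a v0 := by
      field_simp
    rw [h2] at h1
    exact lt_irrefl _ h1
  have hrun : ∀ (w : List (Fin k)) (x : Fin n), a x = a v0 → a (run δ x w) = a v0 := by
    intro w
    induction w with
    | nil => intro x hx; exact hx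
    | cons i w ih =>
      intro x hx
      rw [run_cons]
      exact ih _ (hstep x hx i)
  have hall : ∀ x, a x = a v0 := by
    intro x
    obtain ⟨w, hw⟩ := hconn v0 x
    rw [← hw]
    exact hrun w v0 rfl
  rw [hall u, hall v]

theorem kernel_const (hk : 1 ≤ k) (δ : Fin n → Fin k → Fin n)
    (hconn : ∀ u v, ∃ w, run δ u w = v) (ξ : Fin k → ℚ) (hξ : ∑ i, ξ i = 0)
    (h : Fin n → ℚ[X]) (hh : avg ξ δ h = h) (u v : Fin n) : h u = h v := by
  have key : ∀ m : ℕ, ∀ x y : Fin n, (h x).coeff m = (h y).coeff m := by
    intro m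
    induction m using Nat.strong_induction_on with
    | _ m ih =>
      apply kernel_max hk δ hconn (fun x => (h x).coeff m)
      intro x
      have h1 : (avg ξ δ h x).coeff m = (h x).coeff m := by rw [hh]
      rw [avg_apply, Polynomial.finset_sum_coeff] at h1
      show (h x).coeff m = ∑ i, (1 / (k : ℚ)) * (h (δ x i)).coeff m
      rw [← h1]
      have h2 : ∀ i, (wt ξ i * h (δ x i)).coeff m =
          (1 / (k : ℚ)) * (h (δ x i)).coeff m + ξ i * (X * h (δ x i)).coeff m := by
        intro i
        rw [wt, add_mul, mul_assoc, Polynomial.coeff_add, Polynomial.coeff_C_mul,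
          Polynomial.coeff_C_mul]
      rw [Finset.sum_congr rfl fun i _ => h2 i, Finset.sum_add_distrib]
      have h3 : ∑ i, ξ i * (X * h (δ x i)).coeff m = 0 := by
        cases m with
        | zero =>
          refine Finset.sum_eq_zero fun i _ => ?_
          rw [Polynomial.coeff_X_mul_zero, mul_zero]
        | succ m =>
          have h4 : ∀ i, ξ i * (X * h (δ x i)).coeff (m + 1) = ξ i * (h x).coeff m := by
            intro i
            rw [Polynomial.coeff_X_mul, ih m (Nat.lt_succ_self m) (δ x i) x]
          rw [Finset.sum_congr rfl fun i _ => h4 i, ← Finset.sum_mul, hξ, zero_mul]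
      rw [h3, add_zero]
  ext m
  exact key m u v

end Pool.Agent.H82.SR
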