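import Pool.Agent.H82.SR.Hgt

/-!
# SR Pattern

Two colourings which differ only at the vertex `s` and have the same witness `a`, with
`a s ≠ 0`, have the same pattern of heights at `s`.

Proof. Fix `m ≥ 1` and let `I = {i | m ≤ hgt G z (step G c s i)}`, `I' = {i | m ≤ hgt G z (step G c' s i)}`.
By `hw.dco m` and `hw'.dco m`, `Dco G z c ξ a m = 0 = Dco G z c' ξ a m`. The terms with `u ≠ s` are
the same (`step G c u = step G c' u` as `c' u = c u`), so
`a s * ∑ i ∈ I, ξ i = a s * ∑ i ∈ I', ξ i`, and the two sums are equal. The sets `I` and `I'` have the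
same cardinality: both are in bijection with `{e | m ≤ hgt G z (G s e)}` (via `c s` and `c' s`).
By `Good`, `I = I'`. So for all `i` and all `m ≥ 1`:
`m ≤ hgt G z (step G c s i) ↔ m ≤ hgt G z (step G c' s i)`, and the heights are equal.
-/

namespace Pool.Agent.H82.SR

open Finset Polynomial
open Pool.Agent.H10.Sync

variable {n k : ℕ}

private lemma pattern_card {G : OutRegular n k} (z : Fin n) (c : Coloring n k) (s : Fin n)
    (m : ℕ) : (univ.filter fun i => m ≤ hgt G z (step G c s i)).card =
      (univ.filter fun e => m ≤ hgt G z (G s e)).card := by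
  refine card_bij' (fun i _ => (c s).symm i) (fun e _ => c s e) ?_ ?_ ?_ ?_
  · intro i hi
    rw [mem_filter] at hi ⊢
    exact ⟨mem_univ _, hi.2⟩
  · intro e he
    rw [mem_filter] at he ⊢
    refine ⟨mem_univ _, ?_⟩
    rw [step_color]
    exact he.2
  · intro i _
    exact Equiv.apply_symm_apply _ _
  · intro e _
    exact Equiv.symm_apply_apply _ _

theorem pattern_unique {G : OutRegular n k} {z : Fin n} {c c' : Coloring n k} {ξ : Fin k → ℚ}
    (hξ : Good ξ) {a : Fin n → ℚ} (hw : Wit G z c ξ a) (hw' : Wit G z c' ξ a) {s : Fin n}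
    (hs : a s ≠ 0) (hcc : ∀ v, v ≠ s → c' v = c v) (i : Fin k) :
    hgt G z (step G c s i) = hgt G z (step G c' s i) := by
  classical
  have key : ∀ m, 1 ≤ m → (m ≤ hgt G z (step G c s i) ↔ m ≤ hgt G z (step G c' s i)) := by
    intro m hm
    have h1 := hw.dco m hm
    have h2 := hw'.dco m hm
    unfold Dco at h1 h2
    rw [← add_sum_erase univ _ (mem_univ s)] at h1 h2
    have h3 : ∑ u ∈ univ.erase s, a u * ∑ i with m ≤ hgt G z (step G c u i), ξ i =
        ∑ u ∈ univ.erase s, a u * ∑ i with m ≤ hgt G z (step G c' u i), ξ i := by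
      apply sum_congr rfl
      intro u hu
      have hu' : u ≠ s := ne_of_mem_erase hu
      have h4 : ∀ i, step G c' u i = step G c u i := by
        intro i
        unfold step
        rw [hcc u hu']
      simp only [h4]
    rw [h3] at h1
    have h4 : a s * ∑ i with m ≤ hgt G z (step G c s i), ξ i =
        a s * ∑ i with m ≤ hgt G z (step G c' s i), ξ i := by linarith
    have h5 := mul_left_cancel₀ hs h4
    have h6 := hξ.2.2 _ _ (by rw [pattern_card, pattern_card]) h5
    have h7 := congrArg (fun I : Finset (Fin k) => i ∈ I) h6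
    simpa using h7
  rcases Nat.eq_zero_or_pos (hgt G z (step G c s i)) with h | h
  · rcases Nat.eq_zero_or_pos (hgt G z (step G c' s i)) with h' | h'
    · rw [h, h']
    · have := (key _ h').2 le_rfl
      omega
  · have h1 := (key _ h).1 le_rfl
    have h2 := (key _ (h.trans_le h1)).2 le_rfl
    omega

end Pool.Agent.H82.SR
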