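import Pool.Agent.H82.SR.Hgt

/-!
# SR PrefixAdm

If every vertex which is not timed over `z` has only one in-neighbour, the digraph is admissible
with respect to `z`.

Proof. First condition: `y` is not timed, `G u e = y` for all `e` and `G v e' = y`; there is an edge
(`1 ≤ k`), so `v = u` by the hypothesis. Second condition: take any `u ∈ A` and, as `u` is ordinary,
`e` with `y = G u e` not timed. If `v ∈ A`, `v ≠ u` and `SameType G z (G v e') y` then `G v e' = y`
(`sameType_iff_of_not_timed`), so `v = u` by the hypothesis, a contradiction.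
-/

namespace Pool.Agent.H82.SR

open Finset Polynomial
open Pool.Agent.H10.Sync

variable {n k : ℕ}

theorem admissible_of_indegree (hk : 1 ≤ k) {G : OutRegular n k} {z : Fin n}
    (h : ∀ y, ¬ Timed G z y → ∀ u u' e e', G u e = y → G u' e' = y → u = u') :
    Admissible G z := by
  refine ⟨fun u y hy hu v e hv => ?_, fun A hA hord => ?_⟩
  · exact h y hy v u e ⟨0, hk⟩ hv (hu _)
  · obtain ⟨u, hu⟩ := hA
    obtain ⟨e, e', h1, -⟩ := hord u hu
    refine ⟨u, hu, e, fun v hv hvu e'' hst => hvu ?_⟩
    exact h _ h1 v u e'' e ((sameType_iff_of_not_timed h1).1 hst) rfl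

end Pool.Agent.H82.SR
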