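import Pool.Agent.H82.SR.Defs

/-!
# SR Relation

Comparison of the leading coefficients.

Proof. Here `d : List (Fin k) → ℚ` is arbitrary (`d w` stands for `dif ... w z`), and `b u` for
`dif ... w u`. Take the coefficient of `X ^ (m + 1)` of the hypothesis `h0`. As `φ u` has `natDegree`
at most `m`, the term `φ u * C (b u)` contributes `0`. The inner sum over `j` is a
constant polynomial `C (s u i)` with `s u i = ∑ j ∈ Icc 1 (hgt ..), d (w.drop j)`, and
`wt ξ i = C (1 / k) + C (ξ i) * X`; the coefficient of `X ^ (m + 1)` of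
`φ u * (C (1 / k) + C (ξ i) * X) * C (s u i)` is `(φ u).coeff m * ξ i * s u i` (again because
`(φ u).coeff (m + 1) = 0`). So `∑ u, (φ u).coeff m * ∑ i, ξ i * ∑ j ∈ Icc 1 (hgt G z (step G c u i)),
d (w.drop j) = 0`. Replace the inner sum by the sum over `j ∈ Icc 1 H` with the condition
`j ≤ hgt G z (step G c u i)` and exchange the sums: this is
`∑ j ∈ Icc 1 H, Dco G z c ξ (fun u => (φ u).coeff m) j * d (w.drop j) = 0`.
-/

namespace Pool.Agent.H82.SR

open Finset Polynomial
open Pool.Agent.H10.Sync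

variable {n k : ℕ}

private theorem Relation_coeff (ξ : Fin k → ℚ) (f : ℚ[X]) (m : ℕ) (hf : f.natDegree ≤ m)
    (i : Fin k) (s : ℚ) : (f * (wt ξ i * C s)).coeff (m + 1) = f.coeff m * (ξ i * s) := by
  have h : f * (wt ξ i * C s) = f * C (1 / (k : ℚ) * s) + f * X * C (ξ i * s) := by
    unfold wt
    rw [map_mul, map_mul]
    ring
  rw [h, coeff_add, coeff_mul_C, coeff_mul_C, coeff_mul_X,
    coeff_eq_zero_of_natDegree_lt (by omega : f.natDegree < m + 1), zero_mul, zero_add]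

theorem relation (G : OutRegular n k) (z : Fin n) (c : Coloring n k)
    (ξ : Fin k → ℚ) (φ : Fin n → ℚ[X]) (m : ℕ) (hm : ∀ u, (φ u).natDegree ≤ m) (H : ℕ)
    (hH : ∀ v, hgt G z v ≤ H) (w : List (Fin k)) (b : Fin n → ℚ) (d : List (Fin k) → ℚ)
    (h0 : ∑ u, φ u * (C (b u) + ∑ i, wt ξ i * ∑ j ∈ Icc 1 (hgt G z (step G c u i)),
      C (d (w.drop j))) = 0) :
    ∑ j ∈ Icc 1 H, Dco G z c ξ (fun u => (φ u).coeff m) j * d (w.drop j) = 0 := by
  have h1 := congrArg (fun f : ℚ[X] => f.coeff (m + 1)) h0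
  simp only [coeff_zero, finsetSum_coeff] at h1
  have h2 : ∀ u, (φ u * (C (b u) + ∑ i, wt ξ i * ∑ j ∈ Icc 1 (hgt G z (step G c u i)),
      C (d (w.drop j)))).coeff (m + 1) =
      (φ u).coeff m * ∑ i, ξ i * ∑ j ∈ Icc 1 (hgt G z (step G c u i)), d (w.drop j) := by
    intro u
    rw [mul_add, coeff_add, coeff_mul_C,
      coeff_eq_zero_of_natDegree_lt (by have := hm u; omega : (φ u).natDegree < m + 1), zero_mul,
      zero_add, mul_sum, finsetSum_coeff, mul_sum]
    refine sum_congr rfl fun i _ => ?_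
    rw [← map_sum, Relation_coeff ξ (φ u) m (hm u)]
  simp only [h2] at h1
  have h3 : ∀ v, ∑ j ∈ Icc 1 (hgt G z v), d (w.drop j) =
      ∑ j ∈ Icc 1 H, if j ≤ hgt G z v then d (w.drop j) else 0 := by
    intro v
    rw [← sum_filter]
    refine sum_congr ?_ fun _ _ => rfl
    ext j
    rw [mem_filter, mem_Icc, mem_Icc]
    have := hH v
    constructor
    · intro h
      exact ⟨⟨h.1, by omega⟩, h.2⟩
    · intro h
      exact ⟨h.1.1, h.2⟩
  have h5 : ∀ u, (φ u).coeff m * ∑ i, ξ i * ∑ j ∈ Icc 1 (hgt G z (step G c u i)), d (w.drop j) =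
      ∑ j ∈ Icc 1 H, ((φ u).coeff m * ∑ i with j ≤ hgt G z (step G c u i), ξ i) *
        d (w.drop j) := by
    intro u
    simp only [h3]
    have h6 : ∀ i, ξ i * ∑ j ∈ Icc 1 H, (if j ≤ hgt G z (step G c u i) then d (w.drop j) else 0) =
        ∑ j ∈ Icc 1 H, ξ i * (if j ≤ hgt G z (step G c u i) then d (w.drop j) else 0) :=
      fun i => mul_sum _ _ _
    simp only [h6]
    rw [sum_comm, mul_sum]
    refine sum_congr rfl fun j _ => ?_
    rw [mul_assoc, sum_filter, sum_mul]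
    congr 1
    refine sum_congr rfl fun i _ => ?_
    split_ifs <;> simp
  simp only [h5] at h1
  rw [sum_comm] at h1
  rw [← h1]
  unfold Dco
  refine sum_congr rfl fun j _ => ?_
  rw [sum_mul]

end Pool.Agent.H82.SR
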