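import Pool.Agent.H82.SR.Defs
import Pool.Agent.H10.Sync.Graph

/-!
# SR TimeLemma

No linear relation between the difference functions of the tails of a word.

Proof. Write `δ = step G c`, `d w = dif δ w0 p q w z`. Suppose that `D j ≠ 0` for some `j ∈ Icc 1 H`,
and let `j0` be the least such `j`; put `r = H - j0`.

(1) Let `v` be a word with `r ≤ v.length`. Applying the hypothesis to the word
`w = u ++ v`, `u` any word of length `j0` (there is a letter: `hk`), whose length is at least `H`,
and using `D j = 0` for `1 ≤ j < j0`, `w.drop j = v.drop (j - j0)` for `j ≥ j0`: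
`D j0 * d v + ∑ j ∈ Icc (j0 + 1) H, D j * d (v.drop (j - j0)) = 0`. So `d v` is determined by the
values `d (v.drop m)`, `1 ≤ m ≤ r`.

(2) Claim: if `a`, `a'` are words of the same length and `s` is a word of length `≥ r`, then
`d (a ++ s) = d (a' ++ s)`. Strong induction on the length of `a`. If it is `0` then `a = a' = []`.
Otherwise apply (1) to `a ++ s` and to `a' ++ s`: it is enough that
`d ((a ++ s).drop m) = d ((a' ++ s).drop m)` for `1 ≤ m`. If `m ≤ a.length` these words are
`a.drop m ++ s` and `a'.drop m ++ s` (`List.drop_append_of_le_length`), use the induction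
hypothesis; if `m > a.length` both are `s.drop (m - a.length)`.

(3) There is an `L` such that every vertex is reached from `z` by a word of length exactly `L`: by
`exists_large_loops hG z` there is `N` with `Reach G m z z` for all `m ≥ N`, by `hG.1` every vertex
`v` satisfies `Reach G (l v) z v`, put `L = N + ∑ v, l v` and use `Reach.trans`,
`Reach.exists_word`.

(4) Let `s` be any word of length `r`. For all words `a` of length `L`,
`d (a ++ s) = dif δ w0 p q s (run δ z a)` (`run_append`, `List.append_assoc`). By (2) and (3),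
`dif δ w0 p q s v` does not depend on `v`. But by `hs` (with the word `s`) there is a `v` with
`run δ v (s ++ w0) = p`, where the value is `1 - 0 = 1` (as `p ≠ q`), and a `v` with
`run δ v (s ++ w0) = q`, where the value is `0 - 1 = -1`. Contradiction.
-/

namespace Pool.Agent.H82.SR

open Finset Polynomial
open Pool.Agent.H10.Sync

variable {n k : ℕ}

private theorem timeLemma_len {G : OutRegular n k} (hG : Primitive G) (z : Fin n) :
    ∃ L, ∀ v, Reach G L z v := by
  obtain ⟨N, hN⟩ := exists_large_loops hG z
  choose l hl using hG.1 z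
  refine ⟨N + ∑ v, l v, fun v => ?_⟩
  have h1 : l v ≤ ∑ v, l v := single_le_sum (fun _ _ => Nat.zero_le _) (mem_univ v)
  have h2 := (hN (N + (∑ v, l v - l v)) (by omega)).trans (hl v)
  have h3 : N + (∑ v, l v - l v) + l v = N + ∑ v, l v := by omega
  rwa [h3] at h2

theorem time_lemma (hk : 1 ≤ k) {G : OutRegular n k} (hG : Primitive G) (c : Coloring n k)
    {w0 : List (Fin k)} {p q : Fin n} (hs : Sep (step G c) w0 p q) (z : Fin n) (D : ℕ → ℚ)
    (H : ℕ) (h : ∀ w : List (Fin k), H ≤ w.length →
      ∑ j ∈ Icc 1 H, D j * dif (step G c) w0 p q (w.drop j) z = 0) :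
    ∀ j ∈ Icc 1 H, D j = 0 := by
  classical
  by_contra hc
  push Not at hc
  have hne : ((Icc 1 H).filter fun j => D j ≠ 0).Nonempty := by
    obtain ⟨j, hj, hj'⟩ := hc
    exact ⟨j, mem_filter.2 ⟨hj, hj'⟩⟩
  obtain ⟨j0, hj0, hmin⟩ := Finset.exists_min_image _ id hne
  rw [mem_filter, mem_Icc] at hj0
  obtain ⟨⟨hj1, hjH⟩, hD⟩ := hj0
  have hlt : ∀ j, 1 ≤ j → j < j0 → D j = 0 := by
    intro j h1 h2
    by_contra h3
    have := hmin j (mem_filter.2 ⟨mem_Icc.2 ⟨h1, by omega⟩, h3⟩)
    simp only [id] at this
    omega
  obtain ⟨r, hr⟩ : ∃ r, r = H - j0 := ⟨_, rfl⟩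
  obtain ⟨d, hd⟩ : ∃ d : List (Fin k) → ℚ, d = fun w => dif (step G c) w0 p q w z := ⟨_, rfl⟩
  -- (1)
  have h1 : ∀ v : List (Fin k), r ≤ v.length →
      D j0 * d v + ∑ j ∈ Icc (j0 + 1) H, D j * d (v.drop (j - j0)) = 0 := by
    intro v hv
    have hl : (List.replicate j0 (⟨0, hk⟩ : Fin k)).length = j0 := List.length_replicate
    have h2 := h (List.replicate j0 (⟨0, hk⟩ : Fin k) ++ v) (by
      rw [List.length_append, hl]; omega)
    have h3 : ∑ j ∈ Icc 1 H, D j * d ((List.replicate j0 (⟨0, hk⟩ : Fin k) ++ v).drop j)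
        = ∑ j ∈ Icc j0 H, D j * d ((List.replicate j0 (⟨0, hk⟩ : Fin k) ++ v).drop j) := by
      symm
      apply sum_subset
      · intro j hj
        rw [mem_Icc] at hj ⊢
        omega
      · intro j hj hj'
        rw [mem_Icc] at hj hj'
        rw [hlt j hj.1 (by omega), zero_mul]
    have h4 : Icc j0 H = insert j0 (Icc (j0 + 1) H) := by
      ext j
      rw [mem_insert, mem_Icc, mem_Icc]
      omega
    have h5 : j0 ∉ Icc (j0 + 1) H := by
      rw [mem_Icc]; omega
    have hdr : ∀ j, j0 ≤ j →
        (List.replicate j0 (⟨0, hk⟩ : Fin k) ++ v).drop j = v.drop (j - j0) := by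
      intro j hj
      rw [List.drop_append, hl, List.drop_eq_nil_of_le (by rw [hl]; exact hj), List.nil_append]
    have h6 : ∑ j ∈ Icc 1 H, D j * d ((List.replicate j0 (⟨0, hk⟩ : Fin k) ++ v).drop j) = 0 := by
      rw [hd]; exact h2
    rw [h3, h4, sum_insert h5, hdr j0 le_rfl, Nat.sub_self, List.drop_zero] at h6
    rw [← h6]
    congr 1
    apply sum_congr rfl
    intro j hj
    rw [mem_Icc] at hj
    rw [hdr j (by omega)]
  -- (2)
  have h2 : ∀ m : ℕ, ∀ a a' s : List (Fin k), a.length = m → a'.length = m → r ≤ s.length →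
      d (a ++ s) = d (a' ++ s) := by
    intro m
    induction m using Nat.strong_induction_on with
    | _ m ih =>
      intro a a' s ha ha' hsl
      rcases Nat.eq_zero_or_pos m with hm | hm
      · rw [hm] at ha ha'
        rw [List.length_eq_zero_iff.1 ha, List.length_eq_zero_iff.1 ha']
      · have e1 := h1 (a ++ s) (by rw [List.length_append]; omega)
        have e2 := h1 (a' ++ s) (by rw [List.length_append]; omega)
        have e3 : ∑ j ∈ Icc (j0 + 1) H, D j * d ((a ++ s).drop (j - j0)) =
            ∑ j ∈ Icc (j0 + 1) H, D j * d ((a' ++ s).drop (j - j0)) := by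
          apply sum_congr rfl
          intro j hj
          rw [mem_Icc] at hj
          congr 1
          by_cases hjm : j - j0 ≤ m
          · rw [List.drop_append_of_le_length (by omega),
              List.drop_append_of_le_length (by omega)]
            exact ih (m - (j - j0)) (by omega) _ _ s (by rw [List.length_drop, ha])
              (by rw [List.length_drop, ha']) hsl
          · push Not at hjm
            have g : ∀ b : List (Fin k), b.length = m →
                (b ++ s).drop (j - j0) = s.drop (j - j0 - m) := by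
              intro b hb
              rw [List.drop_append, hb, List.drop_eq_nil_of_le (by omega : b.length ≤ j - j0),
                List.nil_append]
            rw [g a ha, g a' ha']
        rw [e3] at e1
        have e4 : D j0 * d (a ++ s) = D j0 * d (a' ++ s) := by linarith
        exact mul_left_cancel₀ hD e4
  -- (3), (4)
  obtain ⟨L, hL⟩ := timeLemma_len hG z
  obtain ⟨hpq, hp, hq, -⟩ := hs
  obtain ⟨s, hsl⟩ : ∃ s : List (Fin k), s.length = r :=
    ⟨List.replicate r ⟨0, hk⟩, List.length_replicate⟩
  obtain ⟨v, hv⟩ := hp s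
  obtain ⟨v', hv'⟩ := hq s
  obtain ⟨a, ha, hav⟩ := (hL v).exists_word c
  obtain ⟨a', ha', hav'⟩ := (hL v').exists_word c
  have h3 := h2 L a a' s ha ha' hsl.ge
  have h4 : d (a ++ s) = 1 := by
    rw [hd]
    simp only [dif]
    rw [List.append_assoc, run_append, hav, hv, if_pos rfl, if_neg hpq, sub_zero]
  have h5 : d (a' ++ s) = -1 := by
    rw [hd]
    simp only [dif]
    rw [List.append_assoc, run_append, hav', hv', if_neg (Ne.symm hpq), if_pos rfl, zero_sub]
  rw [h4, h5] at h3
  norm_num at h3

end Pool.Agent.H82.SR
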