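import Pool.Agent.H82.SR.Hgt

/-!
# SR WitOf

The leading coefficients of a nonzero stationary vector form a witness, once the coefficients `Dco`
are known to vanish.

Proof. Let `a u = (φ u).coeff m`, where `m` is the maximal `natDegree` of the `φ u`, `δ = step G c`,
`τ = table G z c`.

`ne`, `off`: hypotheses `hne`, `hoff`.

(0) Coefficients of stationarity: for all `y`,
`∑ u, a u * ∑ i with τ u i = y, ξ i = 0` (coefficient of `X ^ (m + 1)`; `(φ u).coeff (m + 1) = 0`),
and `∑ u, φ u * ∑ i with τ u i = y, wt ξ i = φ y`.

`type t`, for `t` not timed: `SameType G z a t ↔ a = t` (`sameType_iff_of_not_timed`), and for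
`u` in the core `δ u i = t ↔ τ u i = t` (as `t` is not timed, `t ≠ z` by `timed_z`; unfold
`table`); for `u` not in the core `a u = 0`. So this is (0) with `y = t`.

`type t`, for `t` timed of height `g ≥ 1` (`g = hgt G z t`): `SameType G z x t ↔ hgt G z x = g`
(if `hgt G z x = g ≥ 1` then `x` is timed, by `hgt_of_not_timed`; use `sameType_iff_of_timed`).
So the sum is `Dco .. g - Dco .. (g + 1) = 0`: the filter `{i | g ≤ hgt}` is the disjoint union of
`{i | hgt = g}` and `{i | g + 1 ≤ hgt}`.

`type t`, for `t` timed of height `0`, that is, `t = z`: `SameType G z x z ↔ x = z`. For every `u`,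
`∑ i with δ u i = z, ξ i = - ∑ i with δ u i ≠ z, ξ i` by `hξ`, and
the set `{i | δ u i ≠ z}` is the disjoint union of the sets `{i | δ u i = y}` over the not timed
`y` and the sets `{i | hgt (δ u i) = g}`, `g ≥ 1`. Short way: `{i | δ u i ≠ z}` is the disjoint union
of `{i | 1 ≤ hgt (δ u i)}` and `{i | ¬ Timed (δ u i)}`, and
`∑ u, a u * ∑ i with 1 ≤ hgt (δ u i), ξ i = Dco .. 1 = 0`, and
`∑ u, a u * ∑ i with ¬ Timed (δ u i), ξ i = ∑ y with ¬ Timed y, ∑ u, a u * ∑ i with δ u i = y, ξ i = 0`
by the first case.

`pass u y`: `y` is not timed, so `y ≠ z`, all edges from `u` go to `y`, so `u` is in the core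
(if `u` were timed and `u ≠ z` then it would have a height `g + 1` and `y = G u e` would have height
`g`; there is an edge as `1 ≤ k`). Then `τ u i = y` for all `i` and, for `v ≠ u`, `τ v i ≠ y` for all
`i` (`τ v i = y ≠ z` would imply `y = step G c v i = G v _`, so `v = u`). So stationarity gives
`φ y = φ u * ∑ i, wt ξ i = φ u` (`∑ i, wt ξ i = 1`).

`dco m`: if `m ≤ H` this is `hD`. If `m > H` the filter is empty, by `hH`.
-/

namespace Pool.Agent.H82.SR

open Finset Polynomial
open Pool.Agent.H10.Sync

variable {n k : ℕ}

private theorem WitOf_congr {P Q : Fin k → Prop} [DecidablePred P] [DecidablePred Q]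
    (ξ : Fin k → ℚ) (h : ∀ i, P i ↔ Q i) : ∑ i with P i, ξ i = ∑ i with Q i, ξ i := by
  rw [sum_filter, sum_filter]
  refine sum_congr rfl fun i _ => ?_
  by_cases hp : P i
  · rw [if_pos hp, if_pos ((h i).1 hp)]
  · rw [if_neg hp, if_neg fun hq => hp ((h i).2 hq)]

private theorem WitOf_split {P Q R : Fin k → Prop} [DecidablePred P] [DecidablePred Q]
    [DecidablePred R] (ξ : Fin k → ℚ) (h : ∀ i, P i ↔ (Q i ∨ R i)) (hd : ∀ i, Q i → ¬ R i) :
    ∑ i with P i, ξ i = ∑ i with Q i, ξ i + ∑ i with R i, ξ i := by
  rw [sum_filter, sum_filter, sum_filter, ← sum_add_distrib]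
  refine sum_congr rfl fun i _ => ?_
  by_cases hq : Q i
  · rw [if_pos ((h i).2 (Or.inl hq)), if_pos hq, if_neg (hd i hq), add_zero]
  · by_cases hr : R i
    · rw [if_pos ((h i).2 (Or.inr hr)), if_neg hq, if_pos hr, zero_add]
    · rw [if_neg fun hp => ((h i).1 hp).elim hq hr, if_neg hq, if_neg hr, add_zero]

private theorem WitOf_wt (ξ : Fin k → ℚ) (S : Finset (Fin k)) :
    ∑ i ∈ S, wt ξ i = C (∑ _i ∈ S, 1 / (k : ℚ)) + C (∑ i ∈ S, ξ i) * X := by
  unfold wt
  rw [sum_add_distrib, ← sum_mul, map_sum, map_sum]

private theorem WitOf_coeff {p : ℚ[X]} {m : ℕ} (hp : p.natDegree ≤ m) (α β : ℚ) :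
    (p * (C α + C β * X)).coeff (m + 1) = p.coeff m * β := by
  rw [mul_add, coeff_add, coeff_mul_C, ← mul_assoc, coeff_mul_X, coeff_mul_C,
    coeff_eq_zero_of_natDegree_lt (Nat.lt_succ_of_le hp), zero_mul, zero_add]

private theorem WitOf_zero {ξ : Fin k → ℚ} {τ : Fin n → Fin k → Fin n} {φ : Fin n → ℚ[X]}
    (hφ : Stationary ξ τ φ) {m : ℕ} (hm : ∀ u, (φ u).natDegree ≤ m) (y : Fin n) :
    ∑ u, (φ u).coeff m * ∑ i with τ u i = y, ξ i = 0 := by
  have h1 := congrArg (fun p : ℚ[X] => p.coeff (m + 1)) (hφ y)
  simp only [finsetSum_coeff] at h1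
  rw [coeff_eq_zero_of_natDegree_lt (Nat.lt_succ_of_le (hm y))] at h1
  rw [← h1]
  refine sum_congr rfl fun u _ => ?_
  rw [WitOf_wt, WitOf_coeff (hm u)]

private theorem WitOf_hgt_zero {G : OutRegular n k} {z x : Fin n} (hx : Timed G z x)
    (h0 : hgt G z x = 0) : x = z := by
  have h := height_hgt hx
  rw [h0] at h
  exact h

private theorem WitOf_timed {G : OutRegular n k} {z x : Fin n} (h : 1 ≤ hgt G z x) :
    Timed G z x := by
  by_contra hx
  rw [hgt_of_not_timed hx] at h
  omega

open Classical in
private theorem WitOf_fiber (G : OutRegular n k) (z : Fin n) (c : Coloring n k) (ξ : Fin k → ℚ)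
    (u : Fin n) : ∑ i with ¬ Timed G z (step G c u i), ξ i =
      ∑ y, if Timed G z y then 0 else ∑ i with step G c u i = y, ξ i := by
  have h1 : ∀ y, (if Timed G z y then 0 else ∑ i with step G c u i = y, ξ i) =
      ∑ i, if Timed G z y then 0 else (if step G c u i = y then ξ i else 0) := by
    intro y
    by_cases hy : Timed G z y
    · rw [if_pos hy]
      symm
      exact sum_eq_zero fun i _ => by rw [if_pos hy]
    · rw [if_neg hy, sum_filter]
      exact sum_congr rfl fun i _ => by rw [if_neg hy]
  rw [sum_congr rfl fun y _ => h1 y, sum_comm, sum_filter]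
  refine sum_congr rfl fun i _ => ?_
  rw [sum_eq_single (step G c u i)]
  · by_cases hy : Timed G z (step G c u i)
    · rw [if_neg (not_not.2 hy), if_pos hy]
    · rw [if_pos hy, if_neg hy, if_pos rfl]
  · intro y _ hy
    by_cases hty : Timed G z y
    · rw [if_pos hty]
    · rw [if_neg hty, if_neg (Ne.symm hy)]
  · intro h
    exact absurd (mem_univ _) h

theorem wit_of (hk : 1 ≤ k) (G : OutRegular n k) (z : Fin n) (c : Coloring n k)
    (ξ : Fin k → ℚ) (hξ : ∑ i, ξ i = 0) (φ : Fin n → ℚ[X])
    (hφ : Stationary ξ (table G z c) φ) (m : ℕ) (hm : ∀ u, (φ u).natDegree ≤ m)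
    (hne : ∃ u, (φ u).coeff m ≠ 0) (hoff : ∀ u, ¬ Core G z u → φ u = 0) (H : ℕ)
    (hH : ∀ v, hgt G z v ≤ H)
    (hD : ∀ j ∈ Icc 1 H, Dco G z c ξ (fun u => (φ u).coeff m) j = 0) :
    Wit G z c ξ (fun u => (φ u).coeff m) := by
  classical
  have hoff' : ∀ u, ¬ Core G z u → (φ u).coeff m = 0 := fun u hu => by
    rw [hoff u hu, coeff_zero]
  have hdco : ∀ j, 1 ≤ j → Dco G z c ξ (fun u => (φ u).coeff m) j = 0 := by
    intro j hj
    by_cases hjH : j ≤ H
    · exact hD j (mem_Icc.2 ⟨hj, hjH⟩)
    · unfold Dco
      refine sum_eq_zero fun u _ => ?_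
      have h1 : (univ.filter fun i => j ≤ hgt G z (step G c u i)) = ∅ :=
        filter_eq_empty_iff.2 fun i _ h => hjH (h.trans (hH _))
      rw [h1, sum_empty, mul_zero]
  have hz : ∀ t, ¬ Timed G z t → t ≠ z := fun t ht h => ht (h ▸ timed_z)
  -- the table at core vertices and vertices which are not timed
  have htab : ∀ u, Core G z u → ∀ t, ¬ Timed G z t → ∀ i,
      (step G c u i = t ↔ table G z c u i = t) := by
    intro u hu t ht i
    unfold table
    rw [if_pos hu]
    constructor
    · intro h
      rw [h, if_neg ht]
    · intro h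
      by_cases h2 : Timed G z (step G c u i)
      · rw [if_pos h2] at h
        exact absurd h.symm (hz t ht)
      · rwa [if_neg h2] at h
  have hstep : ∀ t, ¬ Timed G z t →
      ∑ u, (φ u).coeff m * ∑ i with step G c u i = t, ξ i = 0 := by
    intro t ht
    rw [← WitOf_zero hφ hm t]
    refine sum_congr rfl fun u _ => ?_
    by_cases hu : Core G z u
    · rw [WitOf_congr ξ (htab u hu t ht)]
    · rw [hoff' u hu, zero_mul, zero_mul]
  refine ⟨hne, hoff', fun t => ?_, fun u y hy hall honly => ?_, hdco⟩
  · by_cases ht : Timed G z t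
    · by_cases hg : hgt G z t = 0
      · have htz : t = z := WitOf_hgt_zero ht hg
        subst htz
        have h1 : ∀ u, ∑ i with SameType G t (step G c u i) t, ξ i =
            -(∑ i with 1 ≤ hgt G t (step G c u i), ξ i) -
              ∑ i with ¬ Timed G t (step G c u i), ξ i := by
          intro u
          have e1 : ∑ i, ξ i = ∑ i with True, ξ i := by rw [filter_true]
          have e2 : ∑ i with True, ξ i = ∑ i with SameType G t (step G c u i) t, ξ i +
              ∑ i with ¬ SameType G t (step G c u i) t, ξ i :=
            WitOf_split ξ (fun i => by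
              constructor
              · intro _
                exact em _
              · intro _
                trivial) (fun i h h' => h' h)
          have e3 : ∑ i with ¬ SameType G t (step G c u i) t, ξ i =
              ∑ i with 1 ≤ hgt G t (step G c u i), ξ i +
                ∑ i with ¬ Timed G t (step G c u i), ξ i :=
            WitOf_split ξ (fun i => by
              rw [sameType_iff_of_timed ht hk, hg]
              constructor
              · intro h
                by_cases h2 : Timed G t (step G c u i)
                · exact Or.inl (Nat.one_le_iff_ne_zero.2 fun h3 => h ⟨h2, h3⟩)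
                · exact Or.inr h2
              · rintro (h | h) ⟨h2, h3⟩
                · omega
                · exact h h2) (fun i h => not_not.2 (WitOf_timed h))
          rw [e1, e2, e3] at hξ
          linarith
        have h2 : ∑ u, (φ u).coeff m * ∑ i with ¬ Timed G t (step G c u i), ξ i = 0 := by
          have h3 : ∀ u, (φ u).coeff m * ∑ i with ¬ Timed G t (step G c u i), ξ i =
              ∑ y, if Timed G t y then 0 else
                (φ u).coeff m * ∑ i with step G c u i = y, ξ i := by
            intro u
            rw [WitOf_fiber, mul_sum]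
            exact sum_congr rfl fun y _ => by rw [mul_ite, mul_zero]
          rw [sum_congr rfl fun u _ => h3 u, sum_comm]
          refine sum_eq_zero fun y _ => ?_
          by_cases hy : Timed G t y
          · exact sum_eq_zero fun u _ => by rw [if_pos hy]
          · rw [← hstep y hy]
            exact sum_congr rfl fun u _ => by rw [if_neg hy]
        have h4 : ∑ u, (φ u).coeff m * ∑ i with 1 ≤ hgt G t (step G c u i), ξ i = 0 :=
          hdco 1 le_rfl
        have h5 : ∀ u, (φ u).coeff m * ∑ i with SameType G t (step G c u i) t, ξ i =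
            -((φ u).coeff m * ∑ i with 1 ≤ hgt G t (step G c u i), ξ i) -
              (φ u).coeff m * ∑ i with ¬ Timed G t (step G c u i), ξ i := fun u => by
          rw [h1 u]
          ring
        rw [sum_congr rfl fun u _ => h5 u, sum_sub_distrib, sum_neg_distrib, h2, h4]
        ring
      · have hg1 : 1 ≤ hgt G z t := Nat.one_le_iff_ne_zero.2 hg
        have h1 : ∀ u, ∑ i with SameType G z (step G c u i) t, ξ i =
            (∑ i with hgt G z t ≤ hgt G z (step G c u i), ξ i) -
              ∑ i with hgt G z t + 1 ≤ hgt G z (step G c u i), ξ i := by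
          intro u
          have e : ∑ i with hgt G z t ≤ hgt G z (step G c u i), ξ i =
              ∑ i with SameType G z (step G c u i) t, ξ i +
                ∑ i with hgt G z t + 1 ≤ hgt G z (step G c u i), ξ i :=
            WitOf_split ξ (fun i => by
              rw [sameType_iff_of_timed ht hk]
              constructor
              · intro h
                rcases h.eq_or_lt with h2 | h2
                · exact Or.inl ⟨WitOf_timed (hg1.trans h), h2.symm⟩
                · exact Or.inr h2
              · rintro (h | h)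
                · exact h.2.ge
                · omega) (fun i h h' => by
              rw [sameType_iff_of_timed ht hk] at h
              omega)
          rw [e]
          ring
        have h4 : ∑ u, (φ u).coeff m * ∑ i with hgt G z t ≤ hgt G z (step G c u i), ξ i = 0 :=
          hdco _ hg1
        have h5 : ∑ u, (φ u).coeff m *
            ∑ i with hgt G z t + 1 ≤ hgt G z (step G c u i), ξ i = 0 :=
          hdco _ (by omega)
        rw [sum_congr rfl fun u _ => by rw [h1 u, mul_sub], sum_sub_distrib, h4, h5, sub_zero]
    · rw [← hstep t ht]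
      exact sum_congr rfl fun u _ => by
        rw [WitOf_congr ξ fun i => sameType_iff_of_not_timed ht]
  · have hu : Core G z u := by
      by_contra hu
      unfold Core at hu
      rw [not_or, not_not] at hu
      obtain ⟨h1, g, hg⟩ := hu
      cases g with
      | zero => exact h1 hg
      | succ g => exact hy ⟨g, hall ⟨0, hk⟩ ▸ hg.2 ⟨0, hk⟩⟩
    have h1 : φ y = φ u := by
      rw [← hφ y, sum_eq_single u]
      · have h2 : (univ.filter fun i => table G z c u i = y) = univ :=
          filter_eq_self.2 fun i _ => (htab u hu y hy i).1 (hall _)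
        have hk0 : (k : ℚ) ≠ 0 := by
          have : 0 < k := hk
          exact_mod_cast this.ne'
        rw [h2, WitOf_wt, hξ, sum_const, card_univ, Fintype.card_fin, nsmul_eq_mul,
          mul_one_div_cancel hk0]
        simp
      · intro v _ hv
        have h2 : (univ.filter fun i => table G z c v i = y) = ∅ := by
          refine filter_eq_empty_iff.2 fun i _ h => ?_
          by_cases hcv : Core G z v
          · exact hv (honly v _ ((htab v hcv y hy i).2 h))
          · unfold table at h
            rw [if_neg hcv] at h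
            exact hz y hy h.symm
        rw [h2, sum_empty, mul_zero]
      · intro h
        exact absurd (mem_univ _) h
    show (φ y).coeff m = (φ u).coeff m
    rw [h1]

end Pool.Agent.H82.SR
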