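import Pool.Agent.H82.SR.XiExists
import Pool.Agent.H82.SR.ExistsSep
import Pool.Agent.H82.SR.Annihilator
import Pool.Agent.H82.SR.ExistsStationary
import Pool.Agent.H82.SR.FunLInvariant
import Pool.Agent.H82.SR.FunLDif
import Pool.Agent.H82.SR.Relation
import Pool.Agent.H82.SR.TimeLemma
import Pool.Agent.H82.SR.WitOf
import Pool.Agent.H82.SR.ExistsCritical
import Pool.Agent.H82.SR.Pattern
import Pool.Agent.H82.SR.Counting
import Pool.Agent.H82.SR.PrefixAdm

/-! # The synchronizing ratio of admissible digraphs -/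

namespace Pool.Agent.H82.SR

open Finset Polynomial
open Pool.Agent.H10.Sync

variable {n k : ℕ}

/-- A nonzero stationary vector of the table `τ`. -/
noncomputable def phi (ξ : Fin k → ℚ) (τ : Fin n → Fin k → Fin n) : Fin n → ℚ[X] :=
  open Classical in
  if h : ∃ φ : Fin n → ℚ[X], φ ≠ 0 ∧ Stationary ξ τ φ then h.choose else 0

/-- The maximal degree of the entries of `phi`. -/
noncomputable def topdeg (ξ : Fin k → ℚ) (τ : Fin n → Fin k → Fin n) : ℕ :=
  univ.sup fun u => (phi ξ τ u).natDegree

/-- The top coefficients of `phi`. -/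
noncomputable def aco (ξ : Fin k → ℚ) (τ : Fin n → Fin k → Fin n) (u : Fin n) : ℚ :=
  (phi ξ τ u).coeff (topdeg ξ τ)

theorem phi_spec (hk : 1 ≤ k) [Nonempty (Fin n)] (ξ : Fin k → ℚ) (hξ : ∑ i, ξ i = 0)
    (τ : Fin n → Fin k → Fin n) : phi ξ τ ≠ 0 ∧ Stationary ξ τ (phi ξ τ) := by
  have h := exists_stationary hk ξ hξ τ
  unfold phi
  rw [dif_pos h]
  exact h.choose_spec

theorem exists_aco_ne (hk : 1 ≤ k) [Nonempty (Fin n)] (ξ : Fin k → ℚ) (hξ : ∑ i, ξ i = 0)
    (τ : Fin n → Fin k → Fin n) : ∃ u, aco ξ τ u ≠ 0 := by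
  have h1 := (phi_spec hk ξ hξ τ).1
  by_cases h0 : topdeg ξ τ = 0
  · -- all entries are constants
    obtain ⟨u, hu⟩ := Function.ne_iff.1 h1
    refine ⟨u, fun h2 => hu ?_⟩
    have h3 : (phi ξ τ u).natDegree ≤ topdeg ξ τ :=
      le_sup (f := fun u => (phi ξ τ u).natDegree) (mem_univ u)
    rw [h0] at h3
    have h4 := Polynomial.eq_C_of_natDegree_le_zero h3
    unfold aco at h2
    rw [h0] at h2
    rw [h4, h2, C_0]
    rfl
  · obtain ⟨u, -, hu⟩ := exists_mem_eq_sup (univ : Finset (Fin n)) univ_nonempty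
      (fun u => (phi ξ τ u).natDegree)
    refine ⟨u, fun h2 => ?_⟩
    have h3 : (phi ξ τ u).natDegree = topdeg ξ τ := hu.symm
    unfold aco at h2
    rw [← h3] at h2
    have h4 : phi ξ τ u = 0 := Polynomial.leadingCoeff_eq_zero.1 h2
    rw [h4, natDegree_zero] at h3
    exact h0 h3.symm

theorem wit_exists (hk : 2 ≤ k) {G : OutRegular n k} (hG : Primitive G) (z : Fin n)
    {ξ : Fin k → ℚ} (hξ : Good ξ) {c : Coloring n k} (hc : ¬ Synchronizing G c) :
    Wit G z c ξ (aco ξ (table G z c)) := by
  have := nonempty_of_primitive hG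
  have hk1 : 1 ≤ k := by omega
  obtain ⟨h1, hφ⟩ := phi_spec hk1 ξ hξ.1 (table G z c)
  obtain ⟨w0, p, q, hs⟩ := exists_sep (step G c) hc
  obtain ⟨H, hH⟩ := exists_hgt_bound G z
  have hm : ∀ u, (phi ξ (table G z c) u).natDegree ≤ topdeg ξ (table G z c) := fun u =>
    le_sup (f := fun u => (phi ξ (table G z c) u).natDegree) (mem_univ u)
  refine wit_of hk1 G z c ξ hξ.1 _ hφ _ hm (exists_aco_ne hk1 ξ hξ.1 _)
    (fun u hu => phi_off_core hφ u hu) H hH ?_
  refine time_lemma hk1 hG c hs z _ H fun w hw => ?_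
  refine relation G z c ξ _ _ hm H hH w (dif (step G c) w0 p q w)
    (fun w => dif (step G c) w0 p q w z) ?_
  rw [← funL_dif hk1 G z c ξ hξ.1 _ w0 p q w fun v => (hH v).trans hw]
  exact annihilator hk1 (step G c) (conn_of_primitive hG c) ξ hξ.1 hs _
    (funL_invariant hk1 G z c ξ hξ.1 _ hφ) w

open Classical in
/-- The selected critical vertex. -/
noncomputable def sel (G : OutRegular n k) (z : Fin n) (ξ : Fin k → ℚ) (c : Coloring n k) :
    Fin n :=
  if h : ∃ u, Critical G z u ∧ aco ξ (table G z c) u ≠ 0 then h.choose else z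

theorem sel_spec (hk : 2 ≤ k) {G : OutRegular n k} (hG : Primitive G) {z : Fin n}
    (hadm : Admissible G z) {ξ : Fin k → ℚ} (hξ : Good ξ) {c : Coloring n k}
    (hc : ¬ Synchronizing G c) :
    Critical G z (sel G z ξ c) ∧ aco ξ (table G z c) (sel G z ξ c) ≠ 0 := by
  have h := exists_critical hk hG hadm hc hξ (wit_exists hk hG z hξ hc)
  unfold sel
  rw [dif_pos h]
  exact h.choose_spec

theorem table_congr {G : OutRegular n k} {z s : Fin n} (hs : Critical G z s)
    {c c' : Coloring n k} (h : ∀ v, v ≠ s → c' v = c v) : table G z c' = table G z c := by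
  funext u i
  by_cases hu : u = s
  · subst hu
    unfold table
    have h1 : Timed G z (step G c u i) := hs.1 _
    have h2 : Timed G z (step G c' u i) := hs.1 _
    rw [if_pos h1, if_pos h2]
  · unfold table step
    rw [h u hu]

theorem bad_card_le (hk : 2 ≤ k) {G : OutRegular n k} (hG : Primitive G) {z : Fin n}
    (hadm : Admissible G z) (Bad : Finset (Coloring n k))
    (hBad : ∀ c ∈ Bad, ¬ Synchronizing G c) : k * Bad.card ≤ Fintype.card (Coloring n k) := by
  obtain ⟨ξ, hξ⟩ := exists_good k (by omega)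
  have hselc : ∀ c ∈ Bad, ∀ c', (∀ v, v ≠ sel G z ξ c → c' v = c v) →
      table G z c' = table G z c := fun c hc c' h =>
    table_congr (sel_spec hk hG hadm hξ (hBad c hc)).1 h
  refine counting Bad (sel G z ξ) (fun v e => hgt G z (G v e)) ?_ ?_ ?_
  · intro c hc
    obtain ⟨h1, e, e', h2⟩ := (sel_spec hk hG hadm hξ (hBad c hc)).1
    refine ⟨e, e', fun h3 => h2 ?_⟩
    exact (sameType_iff_of_timed (h1 e') (by omega)).2 ⟨h1 e, h3⟩
  · intro c hc c' h
    unfold sel
    rw [hselc c hc c' h]
  · intro c hc c' hc' h i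
    obtain ⟨h1, h2⟩ := sel_spec hk hG hadm hξ (hBad c hc)
    have hw := wit_exists hk hG z hξ (hBad c hc)
    have hw' := wit_exists hk hG z hξ (hBad c' hc')
    rw [hselc c hc c' h] at hw'
    exact pattern_unique hξ hw hw' h2 h i

theorem card_coloring (n k : ℕ) :
    (Fintype.card (Coloring n k) : ℝ) = (k.factorial : ℝ) ^ n := by
  rw [Fintype.card_pi, prod_const, card_univ, Fintype.card_fin, Fintype.card_perm,
    Fintype.card_fin]
  push_cast
  rfl

open Classical in
theorem syncRatio_eq (G : OutRegular n k) :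
    syncRatio G = 1 - (((univ : Finset (Coloring n k)).filter fun c => ¬ Synchronizing G c).card : ℝ) /
      Fintype.card (Coloring n k) := by
  have hpos : (0 : ℝ) < Fintype.card (Coloring n k) := by
    rw [card_coloring]
    exact pow_pos (by exact_mod_cast Nat.factorial_pos k) n
  have h1 : ((univ : Finset (Coloring n k)).filter fun c => Synchronizing G c).card +
      ((univ : Finset (Coloring n k)).filter fun c => ¬ Synchronizing G c).card =
        Fintype.card (Coloring n k) := by
    rw [← card_univ]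
    exact card_filter_add_card_filter_not _
  have h2 : (((univ : Finset (Coloring n k)).filter fun c => Synchronizing G c).card : ℝ) +
      ((univ : Finset (Coloring n k)).filter fun c => ¬ Synchronizing G c).card =
        Fintype.card (Coloring n k) := by
    exact_mod_cast h1
  rw [syncRatio, ← card_coloring, eq_sub_iff_add_eq, ← add_div, div_eq_one_iff_eq hpos.ne', ← h2]

theorem ratio_ge (hk : 2 ≤ k) {G : OutRegular n k} (hG : Primitive G) {z : Fin n}
    (hadm : Admissible G z) : 1 - 1 / (k : ℝ) ≤ syncRatio G := by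
  classical
  have hpos : (0 : ℝ) < Fintype.card (Coloring n k) := by
    rw [card_coloring]
    exact pow_pos (by exact_mod_cast Nat.factorial_pos k) n
  have hk0 : (0 : ℝ) < k := by exact_mod_cast (show 0 < k by omega)
  rw [syncRatio_eq]
  have h1 := bad_card_le hk hG hadm
    ((univ : Finset (Coloring n k)).filter fun c => ¬ Synchronizing G c)
    (fun c hc => (mem_filter.1 hc).2)
  have h2 : (k : ℝ) * (((univ : Finset (Coloring n k)).filter fun c => ¬ Synchronizing G c).card : ℝ) ≤
      Fintype.card (Coloring n k) := by exact_mod_cast h1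
  have h3 : (((univ : Finset (Coloring n k)).filter fun c => ¬ Synchronizing G c).card : ℝ) /
      Fintype.card (Coloring n k) ≤ 1 / (k : ℝ) := by
    rw [div_le_div_iff₀ hpos hk0]
    linarith
  linarith

theorem ratio_eq_one (hk : 2 ≤ k) {G : OutRegular n k} (hG : Primitive G) {z : Fin n}
    (hadm : Admissible G z) (hcrit : ∀ u, ¬ Critical G z u) : syncRatio G = 1 := by
  classical
  obtain ⟨ξ, hξ⟩ := exists_good k (by omega)
  have h1 : ((univ : Finset (Coloring n k)).filter fun c => ¬ Synchronizing G c) = ∅ := by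
    apply filter_eq_empty_iff.2
    intro c _ hc
    exact hcrit _ (sel_spec hk hG hadm hξ hc).1
  rw [syncRatio_eq, h1]
  simp

end Pool.Agent.H82.SR
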