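import Pool.Agent.H82.SR.Defs

/-!
# SR XiExists

There is a vector of rationals with sum zero, no vanishing proper nonempty subset sum, and whose
subset sums separate sets of the same cardinality.

Proof: `ξ i = 2 ^ i` for `i + 1 < k`, and `ξ (k - 1) = - (2 ^ (k - 1) - 1)` (the total is `0`
because `1 + 2 + ... + 2 ^ (k - 2) = 2 ^ (k - 1) - 1`).
* Let `I` be nonempty and proper. If `k - 1 ∉ I`, the sum is positive. If `k - 1 ∈ I`, the sum over
  `I` is minus the sum over the complement, which is nonempty and does not contain `k - 1`; so it is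
  negative.
* Let `I`, `J` have the same cardinality and the same sum. If neither contains `k - 1`, then `I = J`
  by uniqueness of binary expansions (`Finset.geomSum_injective`, or `Nat.ofBits`/`Finset.equivBitIndices`;
  one may also argue directly: at the largest element of the symmetric difference, `2 ^ j` exceeds
  the sum of all smaller powers). If both contain `k - 1`, pass to the complements. If `k - 1 ∈ I`
  and `k - 1 ∉ J`, then the sum over `I` is `≤ 0` and the sum over `J` is `≥ 0`, so both are `0`,
  `J` is empty (a nonempty `J` has a positive sum), and `I` is not empty: the cardinalities differ.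
-/

namespace Pool.Agent.H82.SR

open Finset Polynomial
open Pool.Agent.H10.Sync

/-- The number with the binary expansion `I`. -/
private def XiExists_s {k : ℕ} (I : Finset (Fin k)) : ℕ := ∑ i ∈ I, 2 ^ (i : ℕ)

private theorem XiExists_inj {k : ℕ} {I J : Finset (Fin k)} (h : XiExists_s I = XiExists_s J) :
    I = J := by
  have h1 : ∀ K : Finset (Fin k), XiExists_s K = ∑ i ∈ K.map Fin.valEmbedding, 2 ^ i := by
    intro K
    rw [sum_map]
    rfl
  rw [h1, h1] at h
  have h2 : I.map Fin.valEmbedding = J.map Fin.valEmbedding :=
    Finset.geomSum_injective (n := 2) (le_refl 2) h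
  exact Finset.map_injective _ h2

private theorem XiExists_le {k : ℕ} (I : Finset (Fin k)) : XiExists_s I ≤ XiExists_s (univ : Finset (Fin k)) :=
  sum_le_sum_of_subset (subset_univ I)

private theorem XiExists_zero {k : ℕ} {I : Finset (Fin k)} (h : XiExists_s I = 0) : I = ∅ := by
  apply XiExists_inj
  rw [h]
  rfl

theorem exists_good (k : ℕ) (hk : 1 ≤ k) : ∃ ξ : Fin k → ℚ, Good ξ := by
  set l : Fin k := ⟨k - 1, by omega⟩ with hl
  set M : ℕ := XiExists_s (univ : Finset (Fin k)) with hM
  have hsum : ∀ I : Finset (Fin k),
      ∑ i ∈ I, (((2 : ℚ) ^ (i : ℕ)) - if i = l then (M : ℚ) else 0) =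
        (XiExists_s I : ℚ) - if l ∈ I then (M : ℚ) else 0 := by
    intro I
    rw [sum_sub_distrib, sum_ite_eq']
    unfold XiExists_s
    push_cast
    rfl
  refine ⟨fun i => ((2 : ℚ) ^ (i : ℕ)) - if i = l then (M : ℚ) else 0, ?_, ?_, ?_⟩
  · rw [hsum, if_pos (mem_univ l), sub_self]
  · intro I hne hI h0
    rw [hsum] at h0
    by_cases hlI : l ∈ I
    · rw [if_pos hlI, sub_eq_zero] at h0
      have h1 : XiExists_s I = M := by exact_mod_cast h0
      exact hI (XiExists_inj h1)
    · rw [if_neg hlI, sub_zero] at h0
      have h1 : XiExists_s I = 0 := by exact_mod_cast h0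
      rw [XiExists_zero h1] at hne
      exact absurd hne (by simp)
  · have key : ∀ I J : Finset (Fin k), I.card = J.card → l ∈ I → l ∉ J →
        (XiExists_s I : ℚ) - M ≠ (XiExists_s J : ℚ) := by
      intro I J hc hI hJ h
      have h1 : XiExists_s I = XiExists_s J + M := by
        have h2 : (XiExists_s I : ℚ) = (XiExists_s J : ℚ) + M := by linarith
        exact_mod_cast h2
      have h2 := XiExists_le I
      rw [← hM] at h2
      have h3 : XiExists_s J = 0 := by omega
      have h4 := XiExists_zero h3
      rw [h4, card_empty, card_eq_zero] at hc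
      rw [hc] at hI
      exact absurd hI (notMem_empty l)
    intro I J hc h
    rw [hsum, hsum] at h
    by_cases hI : l ∈ I <;> by_cases hJ : l ∈ J
    · rw [if_pos hI, if_pos hJ] at h
      have h1 : (XiExists_s I : ℚ) = (XiExists_s J : ℚ) := by linarith
      exact XiExists_inj (by exact_mod_cast h1)
    · rw [if_pos hI, if_neg hJ, sub_zero] at h
      exact absurd h (key I J hc hI hJ)
    · rw [if_neg hI, if_pos hJ, sub_zero] at h
      exact absurd h.symm (key J I hc.symm hJ hI)
    · rw [if_neg hI, if_neg hJ, sub_zero, sub_zero] at h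
      exact XiExists_inj (by exact_mod_cast h)

end Pool.Agent.H82.SR
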